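import Mathlib

/-!
# Totient-sum primes (MP_61a569_nt): definitions
-/

set_option autoImplicit false

namespace TPW

/-- `log log x` -/
noncomputable def LL (x : ℝ) : ℝ := Real.log (Real.log x)

/-- `q(n,k)` -/
def qv (n k : ℕ) : ℕ := Nat.totient k + Nat.totient (n - k) / 2 + 1

/-- `k` is admissible for `n` (`p_m` is `Nat.nth Nat.Prime (m - 1)`) -/
def Admissible (n k : ℕ) : Prop :=
  1 ≤ k ∧ k < n - 2 ∧ (qv n k).Prime ∧
    (Nat.nth Nat.Prime (qv n k - 1) - qv n k - 1).Prime ∧
    (Nat.nth Nat.Prime (qv n k - 1) - qv n k + 1).Prime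

/-- the first of the three conditions for `k` to be admissible for `n` -/
def Cand (n k : ℕ) : Prop := 1 ≤ k ∧ k < n - 2 ∧ (qv n k).Prime

end TPW
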