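import Mathlib
import Pool.Agent.TPW.Defs

/-!
# Project TPW (MP_61a569_nt): targets

`q(n,k) = φ(k) + φ(n-k)/2 + 1`. For almost all `n` there is no `k` such that `q(n,k)` is prime and
`k` or `n - k` lies in a given sparse set.
-/

set_option autoImplicit false

open scoped Classical

namespace TPW

open Finset

/-- the sum of `1/p` over the primes `p ≤ z` -/
noncomputable def B (z : ℕ) : ℝ := ∑ p ∈ (Icc 1 z).filter Nat.Prime, (1 : ℝ) / p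

/-- BONF: a truncated inclusion-exclusion (Bonferroni) -/
def T_BONF : Prop := ∀ w k : ℕ, Even k →
  (if w = 0 then (1 : ℤ) else 0) ≤ ∑ j ∈ range (k + 1), (-1 : ℤ) ^ j * (w.choose j : ℤ)

/-- CRT: the number of `n ≤ N` lying in the prescribed residue classes modulo all primes of `S` -/
def T_CRT : Prop := ∀ (N : ℕ) (Ω : ℕ → Finset ℕ) (S : Finset ℕ), (∀ p ∈ S, p.Prime) →
  (∀ p, (Ω p).card ≤ 2) → (∀ p, ∀ c ∈ Ω p, c < p) →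
  |(((Icc 1 N).filter fun n => ∀ p ∈ S, n % p ∈ Ω p).card : ℝ)
    - N * ∏ p ∈ S, ((Ω p).card : ℝ) / p| ≤ 2 ^ S.card

/-- SIEVE (from BONF, CRT): Brun's pure sieve -/
def T_SIEVE : Prop := ∀ (N z : ℕ) (Ω : ℕ → Finset ℕ), 2 ≤ z → (∀ p, (Ω p).card ≤ 2) →
  (∀ p, ∀ c ∈ Ω p, c < p) → (z : ℝ) ^ (20 * B z + 6) ≤ N →
  (((Icc 1 N).filter fun n => ∀ p ∈ (Icc 1 z).filter Nat.Prime, n % p ∉ Ω p).card : ℝ)
    ≤ 3 * N * Real.exp (-∑ p ∈ (Icc 1 z).filter Nat.Prime, ((Ω p).card : ℝ) / p)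

/-- MLOW: the lower bound in the second theorem of Mertens -/
def T_MLOW : Prop := ∀ z : ℕ, 2 ≤ z → LL z - 1 ≤ B z

/-- MUP: a crude upper bound in the second theorem of Mertens -/
def T_MUP : Prop := ∃ C : ℝ, 1 ≤ C ∧ ∀ z : ℕ, 3 ≤ z → B z ≤ C * (1 + LL z)

/-- OMG (from MUP): the prime divisors of one number -/
def T_OMG : Prop := ∃ (C : ℝ) (D : ℕ), 1 ≤ C ∧ ∀ x : ℕ, 16 ≤ x → ∀ M : ℕ, 1 ≤ M → M ≤ x →
  Real.exp (∑ p ∈ M.primeFactors, (1 : ℝ) / p) ≤ C * LL x ^ D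

/-- RES: the residue classes to be removed -/
def T_RES : Prop := ∀ h a : ℕ, 1 ≤ h → 1 ≤ a → Nat.Coprime h a → h ≠ a →
  ∃ Ω : ℕ → Finset ℕ, (∀ p, (Ω p).card ≤ 2) ∧ (∀ p, ∀ c ∈ Ω p, c < p) ∧
    (∀ p, p.Prime → 1 ≤ (Ω p).card) ∧
    (∀ p, p.Prime → ¬ p ∣ h → ¬ (p : ℤ) ∣ (a : ℤ) - h → (Ω p).card = 2) ∧
    ∀ p n, p.Prime → 1 ≤ n → n % p ∈ Ω p → p ∣ n ∨ p ∣ h * (n - 1) + a

/-- TWO (from SIEVE, MLOW, MUP, OMG, RES): primes `P` such that `h (P - 1) + a` is prime -/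
def T_TWO : Prop := ∀ R : ℝ, 1 ≤ R → ∃ (C : ℝ) (D x0 : ℕ), 1 ≤ C ∧ 16 ≤ x0 ∧
  ∀ x : ℕ, x0 ≤ x → ∀ h a X : ℕ, 1 ≤ h → h ≤ x → 1 ≤ a → a ≤ x → Nat.Coprime h a → h ≠ a →
  X ≤ x → Real.exp (Real.log x / (R * LL x)) ≤ X →
  (((Icc 1 X).filter fun P => P.Prime ∧ (h * (P - 1) + a).Prime).card : ℝ)
    ≤ C * X * LL x ^ D / Real.log x ^ 2

/-- SMO (from MUP): smooth numbers -/
def T_SMO : Prop := ∃ (R : ℝ) (x0 : ℕ), 1 ≤ R ∧ 16 ≤ x0 ∧ ∀ x : ℕ, x0 ≤ x →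
  (((Icc 1 x).filter fun m => ∀ p : ℕ, p.Prime → p ∣ m →
    (p : ℝ) ≤ Real.exp (Real.log x / (R * LL x))).card : ℝ) ≤ x / Real.log x

/-- TOT: small values of the totient -/
def T_TOT : Prop := (∀ s : ℕ, 13 ≤ s → 3 ≤ Nat.totient s) ∧
  ∀ (c h a P s : ℕ), P.Prime → ¬ P ∣ s → 13 ≤ s → (c = 1 ∨ c = 2) → 1 ≤ a →
    h = Nat.totient s / c → (Nat.totient (P * s) / c + a).Prime →
    Nat.totient (P * s) / c = h * (P - 1) ∧ 2 ≤ h ∧ h ≤ s ∧ Nat.Coprime h a ∧ h ≠ a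

/-- MAIN (from TWO, SMO, TOT): the values `φ(m)/c + a` are rarely prime, uniformly in `a` -/
def T_MAIN : Prop := ∃ (C : ℝ) (D x0 : ℕ), 1 ≤ C ∧ 16 ≤ x0 ∧ ∀ x : ℕ, x0 ≤ x → ∀ a c : ℕ,
  1 ≤ a → a ≤ x → (c = 1 ∨ c = 2) →
  (((Icc 1 x).filter fun m => 3 ≤ m ∧ (Nat.totient m / c + a).Prime).card : ℝ)
    ≤ C * (x * LL x ^ D / Real.log x)

/-- FINA (from MAIN): the first half of the result -/
def T_FINA : Prop := ∃ (C : ℝ) (D : ℕ), 1 ≤ C ∧ ∀ (x : ℕ) (K : Finset ℕ), 16 ≤ x →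
  (((Icc 1 x).filter fun n => ∃ k, (k ∈ K ∨ n - k ∈ K) ∧ Cand n k).card : ℝ)
    ≤ C * K.card * (x * LL x ^ D / Real.log x)

/-- FIN (from FINA): the result -/
def T_FIN : Prop := (∀ n k : ℕ, Admissible n k → Cand n k) ∧
  ∃ (C : ℝ) (D : ℕ), 0 < C ∧
  (∀ (x : ℕ) (K : Finset ℕ), 16 ≤ x →
    (((Icc 1 x).filter fun n => ∃ k, (k ∈ K ∨ n - k ∈ K) ∧ Cand n k).card : ℝ)
      ≤ C * K.card * (x * LL x ^ D / Real.log x)) ∧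
  Filter.Tendsto (fun x : ℕ => (((Icc 1 x).filter fun n => ∃ k, Cand n k ∧
    ((min k (n - k) : ℕ) : ℝ) ≤ Real.log n / LL n ^ (D + 1)).card : ℝ) / x)
    Filter.atTop (nhds 0)

end TPW
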