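import Mathlib
import Pool.Agent.TPW.Targets

/-!
# The lower bound in the second theorem of Mertens
-/

set_option autoImplicit false

open scoped Classical

namespace TPW

open Finset

namespace MLOW_

/-- `n ↦ 1/n` -/
noncomputable def fi : ℕ →* ℝ where
  toFun n := (n : ℝ)⁻¹
  map_one' := by simp
  map_mul' a b := by rw [Nat.cast_mul, mul_inv]

theorem fi_apply (n : ℕ) : fi n = (n : ℝ)⁻¹ := rfl

theorem inv_le_exp {t : ℝ} (h0 : 0 ≤ t) (h1 : t ≤ 1 / 2) : (1 - t)⁻¹ ≤ Real.exp (t + t ^ 2) := by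
  have h2 := Real.quadratic_le_exp_of_nonneg (x := t + t ^ 2) (by positivity)
  have h3 : (1 - t)⁻¹ ≤ 1 + (t + t ^ 2) + (t + t ^ 2) ^ 2 / 2 := by
    rw [inv_le_iff_one_le_mul₀ (by linarith)]
    have h4 : (1 + (t + t ^ 2) + (t + t ^ 2) ^ 2 / 2) * (1 - t)
        = 1 + t ^ 2 * ((1 - t - t ^ 2 - t ^ 3) / 2) := by ring
    rw [h4]
    have h5 : t ^ 2 ≤ 1 / 4 := by nlinarith
    have h6 : t ^ 3 ≤ 1 / 8 := by nlinarith [pow_nonneg h0 3, sq_nonneg t]
    nlinarith [sq_nonneg t]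
  linarith

theorem sum_sq_le (z : ℕ) : ∑ p ∈ (Icc 1 z).filter Nat.Prime, ((p : ℝ)⁻¹) ^ 2 ≤ 1 := by
  have h1 : ∀ z : ℕ, ∑ n ∈ Icc 2 (z + 1), ((n : ℝ)⁻¹) ^ 2 ≤ 1 - 1 / ((z : ℝ) + 1) := by
    intro z
    induction z with
    | zero => simp
    | succ z ih =>
      rw [Finset.sum_Icc_succ_top (by omega)]
      have hz' : (0 : ℝ) ≤ z := Nat.cast_nonneg z
      have h2 : ((((z + 1 + 1 : ℕ) : ℝ))⁻¹) ^ 2 ≤
          1 / ((z : ℝ) + 1) - 1 / (((z + 1 : ℕ) : ℝ) + 1) := by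
        push_cast
        rw [div_sub_div _ _ (by positivity) (by positivity), inv_pow, inv_eq_one_div,
          div_le_div_iff₀ (by positivity) (by positivity)]
        nlinarith
      linarith
  have h2 : ∑ p ∈ (Icc 1 z).filter Nat.Prime, ((p : ℝ)⁻¹) ^ 2 ≤ ∑ n ∈ Icc 2 z, ((n : ℝ)⁻¹) ^ 2 := by
    apply Finset.sum_le_sum_of_subset_of_nonneg
    · intro p hp
      rw [mem_filter, mem_Icc] at hp
      rw [mem_Icc]
      exact ⟨hp.2.two_le, hp.1.2⟩
    · intro i _ _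
      positivity
  have h3 := h1 z
  have h4 : 0 ≤ 1 / ((z : ℝ) + 1) := by positivity
  have h5 : ∑ n ∈ Icc 2 z, ((n : ℝ)⁻¹) ^ 2 ≤ ∑ n ∈ Icc 2 (z + 1), ((n : ℝ)⁻¹) ^ 2 := by
    apply Finset.sum_le_sum_of_subset_of_nonneg
    · exact Finset.Icc_subset_Icc_right (by omega)
    · intro i _ _
      positivity
  linarith

theorem harm_le (z : ℕ) : ∑ n ∈ Icc 1 z, ((n : ℝ))⁻¹ ≤
    ∏ p ∈ (Icc 1 z).filter Nat.Prime, (1 - (p : ℝ)⁻¹)⁻¹ := by
  have hp : ∀ {p : ℕ}, p.Prime → ‖fi p‖ < 1 := by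
    intro p hp
    rw [fi_apply, norm_inv, Real.norm_natCast]
    apply inv_lt_one_of_one_lt₀
    exact_mod_cast hp.one_lt
  obtain ⟨-, h1⟩ := EulerProduct.summable_and_hasSum_smoothNumbers_prod_primesBelow_geometric
    (f := fi) hp (z + 1)
  have h2 := (hasSum_subtype_iff_indicator (f := fun m => fi m)
    (s := Nat.smoothNumbers (z + 1))).1 h1
  have h3 : ∑ n ∈ Icc 1 z, Set.indicator (Nat.smoothNumbers (z + 1)) (fun m => fi m) n ≤
      ∏ p ∈ (z + 1).primesBelow, (1 - fi p)⁻¹ := by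
    apply sum_le_hasSum _ _ h2
    intro i _
    apply Set.indicator_nonneg
    intro x _
    rw [fi_apply]
    positivity
  have h4 : ∑ n ∈ Icc 1 z, Set.indicator (Nat.smoothNumbers (z + 1)) (fun m => fi m) n =
      ∑ n ∈ Icc 1 z, ((n : ℝ))⁻¹ := by
    apply Finset.sum_congr rfl
    intro n hn
    rw [mem_Icc] at hn
    rw [Set.indicator_of_mem (Nat.mem_smoothNumbers_of_lt (by omega) (by omega)), fi_apply]
  have h5 : (z + 1).primesBelow = (Icc 1 z).filter Nat.Prime := by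
    ext p
    rw [Nat.mem_primesBelow, mem_filter, mem_Icc]
    constructor
    · rintro ⟨ha, hb⟩
      exact ⟨⟨hb.one_lt.le, by omega⟩, hb⟩
    · rintro ⟨⟨ha, hb⟩, hc⟩
      exact ⟨by omega, hc⟩
  rw [h4, h5] at h3
  simpa only [fi_apply] using h3

end MLOW_

open MLOW_ in
theorem p_MLOW : T_MLOW := by
  intro z hz
  have h1 : Real.log z ≤ ∑ n ∈ Icc 1 z, ((n : ℝ))⁻¹ := by
    have h2 := log_add_one_le_harmonic z
    have h3 : Real.log z ≤ Real.log ((z + 1 : ℕ) : ℝ) := by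
      apply Real.log_le_log
      · exact_mod_cast (by omega : 0 < z)
      · push_cast
        linarith
    have h4 : ((harmonic z : ℚ) : ℝ) = ∑ n ∈ Icc 1 z, ((n : ℝ))⁻¹ := by
      rw [harmonic_eq_sum_Icc]
      push_cast
      rfl
    rw [← h4]
    exact h3.trans h2
  have h2 := h1.trans (harm_le z)
  have h3 : ∏ p ∈ (Icc 1 z).filter Nat.Prime, (1 - (p : ℝ)⁻¹)⁻¹ ≤
      ∏ p ∈ (Icc 1 z).filter Nat.Prime, Real.exp ((p : ℝ)⁻¹ + ((p : ℝ)⁻¹) ^ 2) := by
    apply Finset.prod_le_prod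
    · intro p hp
      rw [mem_filter] at hp
      have : (1 : ℝ) < p := by exact_mod_cast hp.2.one_lt
      have h5 : (p : ℝ)⁻¹ < 1 := inv_lt_one_of_one_lt₀ this
      exact inv_nonneg.2 (by linarith)
    · intro p hp
      rw [mem_filter] at hp
      have h4 : (2 : ℝ) ≤ p := by exact_mod_cast hp.2.two_le
      apply inv_le_exp (by positivity)
      rw [inv_eq_one_div]
      exact one_div_le_one_div_of_le (by norm_num) h4
  rw [← Real.exp_sum, Finset.sum_add_distrib] at h3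
  have h4 := sum_sq_le z
  have h5 : ∑ p ∈ (Icc 1 z).filter Nat.Prime, ((p : ℝ))⁻¹ = B z := by
    unfold B
    simp only [one_div]
  rw [h5] at h3
  have h6 : Real.log z ≤ Real.exp (B z + 1) :=
    (h2.trans h3).trans (Real.exp_le_exp.2 (by linarith))
  have hz1 : (1 : ℝ) < z := by exact_mod_cast hz
  have hl : 0 < Real.log z := Real.log_pos hz1
  have h7 := Real.log_le_log hl h6
  rw [Real.log_exp] at h7
  unfold LL
  linarith

end TPW
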