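import Mathlib
import Pool.Agent.TPW.Targets

/-!
# BONF: a truncated inclusion-exclusion
-/

set_option autoImplicit false

open scoped Classical

namespace TPW

open Finset

namespace BONF_

theorem alt (v : ℕ) : ∀ k : ℕ, ∑ j ∈ range (k + 1), (-1 : ℤ) ^ j * ((v + 1).choose j : ℤ) =
    (-1) ^ k * (v.choose k : ℤ) := by
  intro k
  induction k with
  | zero => simp
  | succ k ih =>
    rw [sum_range_succ, ih, Nat.choose_succ_succ, pow_succ]
    push_cast
    ring

end BONF_

/-- BONF -/
theorem p_BONF : T_BONF := by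
  intro w k hk
  rcases w with _ | v
  · rw [if_pos rfl, sum_eq_single 0]
    · simp
    · intro j _ hj
      obtain ⟨i, rfl⟩ := Nat.exists_eq_succ_of_ne_zero hj
      rw [Nat.choose_zero_succ, Nat.cast_zero, mul_zero]
    · intro h
      exact absurd (mem_range.2 (Nat.succ_pos k)) h
  · rw [if_neg (Nat.succ_ne_zero v), BONF_.alt, hk.neg_one_pow, one_mul]
    exact Nat.cast_nonneg _

end TPW
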