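import Mathlib
import Pool.Agent.TPW.Targets

/-!
# TPW: counting in residue classes
-/

set_option autoImplicit false

open scoped Classical

namespace TPW

open Finset

namespace CRT_

/-- counting one residue class -/
theorem count_class (N m r : ℕ) (hm : 0 < m) :
    |(((Icc 1 N).filter fun n => n % m = r % m).card : ℝ) - N / m| ≤ 1 := by
  have h0 : ((Icc 1 N).filter fun n => n % m = r % m) =
      (Ioc 0 N).filter (fun n => n ≡ r [MOD m]) := by
    ext n
    rw [mem_filter, mem_filter, mem_Icc, mem_Ioc]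
    constructor
    · rintro ⟨⟨h1, h2⟩, h3⟩
      exact ⟨⟨by omega, h2⟩, h3⟩
    · rintro ⟨⟨h1, h2⟩, h3⟩
      exact ⟨⟨by omega, h2⟩, h3⟩
  have h1 := Nat.Ioc_filter_modEq_card 0 N hm r
  have hm' : (0 : ℚ) < m := by exact_mod_cast hm
  set A : ℤ := ⌊((N : ℚ) - r) / m⌋ with hA
  set B : ℤ := ⌊(((0 : ℕ) : ℚ) - r) / m⌋ with hB
  have h2 : (A : ℚ) ≤ ((N : ℚ) - r) / m := Int.floor_le _
  have h3 : ((N : ℚ) - r) / m < A + 1 := Int.lt_floor_add_one _
  have h4 : (B : ℚ) ≤ (((0 : ℕ) : ℚ) - r) / m := Int.floor_le _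
  have h5 : (((0 : ℕ) : ℚ) - r) / m < B + 1 := Int.lt_floor_add_one _
  have h6 : ((N : ℚ) - r) / m - (((0 : ℕ) : ℚ) - r) / m = N / m := by
    push_cast; field_simp; ring
  have hAB : B ≤ A := by
    apply Int.floor_le_floor
    apply div_le_div_of_nonneg_right _ hm'.le
    have : (0 : ℚ) ≤ N := Nat.cast_nonneg N
    push_cast
    linarith
  rw [max_eq_left (by omega)] at h1
  have hcard : ((((Icc 1 N).filter fun n => n % m = r % m).card : ℤ)) = A - B := by
    rw [h0, ← h1]
  have h7 : ((((Icc 1 N).filter fun n => n % m = r % m).card : ℤ) : ℚ) = (A : ℚ) - B := by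
    rw [hcard]; push_cast; ring
  have h8 : |((((Icc 1 N).filter fun n => n % m = r % m).card : ℤ) : ℚ) - N / m| ≤ 1 := by
    rw [h7, abs_le]
    constructor <;> linarith
  have h9 : |((((((Icc 1 N).filter fun n => n % m = r % m).card : ℤ) : ℚ) - N / m : ℚ) : ℝ)|
      ≤ 1 := by exact_mod_cast h8
  push_cast at h9
  exact h9

theorem gen (N : ℕ) (Ω : ℕ → Finset ℕ) (hc : ∀ p, (Ω p).card ≤ 2) (hlt : ∀ p, ∀ c ∈ Ω p, c < p)
    (S : Finset ℕ) : (∀ p ∈ S, p.Prime) → ∀ m r : ℕ, 0 < m → (∀ p ∈ S, Nat.Coprime m p) →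
    |(((Icc 1 N).filter fun n => n % m = r % m ∧ ∀ p ∈ S, n % p ∈ Ω p).card : ℝ)
      - N / m * ∏ p ∈ S, ((Ω p).card : ℝ) / p| ≤ 2 ^ S.card := by
  induction S using Finset.induction_on with
  | empty =>
    intro _ m r hm _
    have h := count_class N m r hm
    have h0 : ((Icc 1 N).filter fun n => n % m = r % m ∧ ∀ p ∈ (∅ : Finset ℕ), n % p ∈ Ω p) =
        (Icc 1 N).filter fun n => n % m = r % m := by
      ext n
      simp
    rw [h0, prod_empty, mul_one, card_empty, pow_zero]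
    exact h
  | insert p S hpS ih =>
    intro hpr m r hm hcop
    have hp : p.Prime := hpr p (mem_insert_self _ _)
    have hmp : Nat.Coprime m p := hcop p (mem_insert_self _ _)
    have hS : ∀ q ∈ S, q.Prime := fun q hq => hpr q (mem_insert_of_mem hq)
    have hcop' : ∀ q ∈ S, Nat.Coprime (m * p) q := by
      intro q hq
      refine Nat.Coprime.mul_left (hcop q (mem_insert_of_mem hq)) ?_
      rw [Nat.coprime_primes hp (hS q hq)]
      intro h
      exact hpS (h ▸ hq)
    set T := (Icc 1 N).filter fun n => n % m = r % m ∧ ∀ q ∈ insert p S, n % q ∈ Ω q with hT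
    have hfib : T.card = ∑ c ∈ Ω p, (T.filter fun n => n % p = c).card := by
      apply card_eq_sum_card_fiberwise
      intro n hn
      rw [hT] at hn
      exact (mem_filter.1 hn).2.2 p (mem_insert_self _ _)
    have hone : ∀ c ∈ Ω p, |((T.filter fun n => n % p = c).card : ℝ) -
        N / ((m * p : ℕ) : ℝ) * ∏ q ∈ S, ((Ω q).card : ℝ) / q| ≤ 2 ^ S.card := by
      intro c hcΩ
      obtain ⟨k, hk1, hk2⟩ := Nat.chineseRemainder hmp r c
      have hset : (T.filter fun n => n % p = c) =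
          (Icc 1 N).filter fun n => n % (m * p) = k % (m * p) ∧ ∀ q ∈ S, n % q ∈ Ω q := by
        ext n
        rw [hT]
        simp only [mem_filter, mem_insert, forall_eq_or_imp]
        have hiff : n % (m * p) = k % (m * p) ↔ n % m = r % m ∧ n % p = c := by
          have e1 : n % (m * p) = k % (m * p) ↔ n ≡ k [MOD m * p] := Iff.rfl
          rw [e1, ← Nat.modEq_and_modEq_iff_modEq_mul hmp]
          constructor
          · rintro ⟨a1, a2⟩
            refine ⟨a1.trans hk1, ?_⟩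
            have := a2.trans hk2
            rw [Nat.ModEq, Nat.mod_eq_of_lt (hlt p c hcΩ)] at this
            exact this
          · rintro ⟨a1, a2⟩
            refine ⟨Nat.ModEq.trans a1 hk1.symm, ?_⟩
            have h3 : n ≡ c [MOD p] := by
              rw [Nat.ModEq, Nat.mod_eq_of_lt (hlt p c hcΩ)]
              exact a2
            exact h3.trans hk2.symm
        rw [hiff]
        constructor
        · rintro ⟨⟨b1, b2, b3, b4⟩, b5⟩
          exact ⟨b1, ⟨b2, b5⟩, b4⟩
        · rintro ⟨b1, ⟨b2, b5⟩, b4⟩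
          exact ⟨⟨b1, b2, b5 ▸ hcΩ, b4⟩, b5⟩
      rw [hset]
      exact ih hS (m * p) k (Nat.mul_pos hm hp.pos) hcop'
    have hp0 : (p : ℝ) ≠ 0 := by exact_mod_cast hp.ne_zero
    have hm0 : (m : ℝ) ≠ 0 := by exact_mod_cast hm.ne'
    have hmain : (T.card : ℝ) - N / m * ∏ q ∈ insert p S, ((Ω q).card : ℝ) / q =
        ∑ c ∈ Ω p, (((T.filter fun n => n % p = c).card : ℝ) -
          N / ((m * p : ℕ) : ℝ) * ∏ q ∈ S, ((Ω q).card : ℝ) / q) := by
      rw [sum_sub_distrib, sum_const, nsmul_eq_mul, hfib, prod_insert hpS]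
      push_cast
      field_simp
    rw [hmain, card_insert_of_notMem hpS, pow_succ']
    calc |∑ c ∈ Ω p, (((T.filter fun n => n % p = c).card : ℝ) -
          N / ((m * p : ℕ) : ℝ) * ∏ q ∈ S, ((Ω q).card : ℝ) / q)|
        ≤ ∑ c ∈ Ω p, |((T.filter fun n => n % p = c).card : ℝ) -
          N / ((m * p : ℕ) : ℝ) * ∏ q ∈ S, ((Ω q).card : ℝ) / q| := abs_sum_le_sum_abs _ _
      _ ≤ ∑ c ∈ Ω p, (2 : ℝ) ^ S.card := sum_le_sum hone
      _ = ((Ω p).card : ℝ) * 2 ^ S.card := by rw [sum_const, nsmul_eq_mul]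
      _ ≤ 2 * 2 ^ S.card := by
          apply mul_le_mul_of_nonneg_right _ (by positivity)
          exact_mod_cast hc p

end CRT_

theorem p_CRT : T_CRT := by
  intro N Ω S hpr hc hlt
  have h := CRT_.gen N Ω hc hlt S hpr 1 0 one_pos (fun p _ => Nat.coprime_one_left p)
  have h0 : ((Icc 1 N).filter fun n => n % 1 = 0 % 1 ∧ ∀ p ∈ S, n % p ∈ Ω p) =
      (Icc 1 N).filter fun n => ∀ p ∈ S, n % p ∈ Ω p := by
    ext n
    simp [Nat.mod_one]
  rw [h0] at h
  simpa using h

end TPW
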