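import Pool.Agent.TPW.Targets

/-!
# Project TPW: FIN, density one
-/

set_option autoImplicit false

open scoped Classical

namespace TPW

open Finset

namespace FIN_

theorem tendsto_LL : Filter.Tendsto (fun x : ℕ => LL (x : ℝ)) Filter.atTop Filter.atTop :=
  Real.tendsto_log_atTop.comp (Real.tendsto_log_atTop.comp tendsto_natCast_atTop_atTop)

theorem tendsto_L : Filter.Tendsto (fun x : ℕ => Real.log (x : ℝ)) Filter.atTop Filter.atTop :=
  Real.tendsto_log_atTop.comp tendsto_natCast_atTop_atTop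

theorem tendsto_ratio (D : ℕ) : Filter.Tendsto
    (fun x : ℕ => LL (x : ℝ) ^ D / Real.log (x : ℝ)) Filter.atTop (nhds 0) := by
  have h1 : Filter.Tendsto (fun y : ℝ => Real.log y ^ D / y) Filter.atTop (nhds 0) :=
    (Real.isLittleO_pow_log_id_atTop (n := D)).tendsto_div_nhds_zero
  exact h1.comp tendsto_L

/-- the error term tends to `0` -/
theorem tendsto_err (C : ℝ) (D : ℕ) : Filter.Tendsto
    (fun x : ℕ => √(x : ℝ) / x + C * ((2 ^ (D + 1) * Real.log (x : ℝ) / LL (x : ℝ) ^ (D + 1) + 1) *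
      (LL (x : ℝ) ^ D / Real.log (x : ℝ)))) Filter.atTop (nhds 0) := by
  have h1 : Filter.Tendsto (fun x : ℕ => √(x : ℝ) / x) Filter.atTop (nhds 0) := by
    have h2 : Filter.Tendsto (fun x : ℕ => (1 : ℝ) / √(x : ℝ)) Filter.atTop (nhds 0) :=
      (Real.tendsto_sqrt_atTop.comp tendsto_natCast_atTop_atTop).const_div_atTop 1
    refine h2.congr ?_
    intro x
    rw [Real.sqrt_div_self', one_div]
  have h3 : Filter.Tendsto (fun x : ℕ => C * (2 ^ (D + 1) / LL (x : ℝ) +
      LL (x : ℝ) ^ D / Real.log (x : ℝ))) Filter.atTop (nhds 0) := by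
    have h4 : Filter.Tendsto (fun x : ℕ => (2 : ℝ) ^ (D + 1) / LL (x : ℝ)) Filter.atTop
        (nhds 0) := tendsto_LL.const_div_atTop _
    have h5 := (h4.add (tendsto_ratio D)).const_mul C
    simpa using h5
  have h6 := h1.add h3
  rw [add_zero] at h6
  refine h6.congr' ?_
  filter_upwards [tendsto_LL.eventually_gt_atTop 0, tendsto_L.eventually_gt_atTop 0] with x hx hy
  congr 2
  rw [pow_succ (LL (x : ℝ)) D]
  field_simp

end FIN_

open FIN_ in
theorem p_FIN (h : T_FINA) : T_FIN := by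
  refine ⟨fun n k hA => ⟨hA.1, hA.2.1, hA.2.2.1⟩, ?_⟩
  obtain ⟨C, D, hC, hF⟩ := h
  refine ⟨C, D, by linarith, hF, ?_⟩
  refine squeeze_zero' (Filter.Eventually.of_forall fun x => by positivity) ?_ (tendsto_err C D)
  filter_upwards [tendsto_LL.eventually_ge_atTop (2 * Real.log 2),
    Filter.eventually_ge_atTop 16] with x hl hx
  have hx0 : (0 : ℝ) < x := by
    have : 0 < x := by omega
    exact_mod_cast this
  have hx16 : (16 : ℝ) ≤ x := by exact_mod_cast hx
  have hlog2 : 0 < Real.log 2 := Real.log_pos (by norm_num)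
  have hl0 : 0 < LL (x : ℝ) := by linarith
  have hL0 : 0 < Real.log (x : ℝ) := Real.log_pos (by linarith)
  set T : ℝ := 2 ^ (D + 1) * Real.log (x : ℝ) / LL (x : ℝ) ^ (D + 1) with hT
  have hT0 : 0 ≤ T := by positivity
  set K : Finset ℕ := range (⌊T⌋₊ + 1) with hK
  have hsub : ((Icc 1 x).filter fun n => ∃ k, Cand n k ∧
      ((min k (n - k) : ℕ) : ℝ) ≤ Real.log n / LL n ^ (D + 1)) ⊆
      (Icc 1 ⌊√(x : ℝ)⌋₊) ∪
      ((Icc 1 x).filter fun n => ∃ k, (k ∈ K ∨ n - k ∈ K) ∧ Cand n k) := by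
    intro n hn
    rw [mem_filter, mem_Icc] at hn
    obtain ⟨⟨hn1, hnx⟩, k, hk, hmin⟩ := hn
    rw [mem_union]
    by_cases hs : (n : ℝ) ≤ √(x : ℝ)
    · left
      rw [mem_Icc]
      exact ⟨hn1, Nat.le_floor hs⟩
    · right
      push Not at hs
      rw [mem_filter, mem_Icc]
      refine ⟨⟨hn1, hnx⟩, k, ?_, hk⟩
      have hn0 : (0 : ℝ) < n := by
        have : 0 < n := by omega
        exact_mod_cast this
      have hnx' : (n : ℝ) ≤ x := by exact_mod_cast hnx
      have hsq : 0 < √(x : ℝ) := Real.sqrt_pos.mpr hx0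
      have e1 : Real.log (x : ℝ) / 2 ≤ Real.log n := by
        have e2 := Real.log_le_log hsq hs.le
        rw [Real.log_sqrt hx0.le] at e2
        exact e2
      have e3 : Real.log n ≤ Real.log (x : ℝ) := Real.log_le_log hn0 hnx'
      have e4 : LL (x : ℝ) / 2 ≤ LL (n : ℝ) := by
        have e5 : Real.log (Real.log (x : ℝ) / 2) ≤ Real.log (Real.log n) :=
          Real.log_le_log (by positivity) e1
        rw [Real.log_div hL0.ne' (by norm_num)] at e5
        unfold LL at hl ⊢
        linarith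
      have e6 : Real.log n / LL n ^ (D + 1) ≤ T := by
        have e7 : (LL (x : ℝ) / 2) ^ (D + 1) ≤ LL (n : ℝ) ^ (D + 1) :=
          pow_le_pow_left₀ (by positivity) e4 _
        have e8 : T = Real.log (x : ℝ) / (LL (x : ℝ) / 2) ^ (D + 1) := by
          rw [hT, div_pow]
          field_simp
        rw [e8]
        apply div_le_div₀ hL0.le e3 (by positivity) e7
      have e9 : min k (n - k) ∈ K := by
        rw [hK, mem_range]
        have := Nat.le_floor (hmin.trans e6)
        omega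
      rcases le_total k (n - k) with h1 | h1
      · left
        rwa [min_eq_left h1] at e9
      · right
        rwa [min_eq_right h1] at e9
  have hc1 := card_le_card hsub
  have hc2 := hc1.trans (card_union_le _ _)
  have hc3 : (((Icc 1 x).filter fun n => ∃ k, Cand n k ∧
      ((min k (n - k) : ℕ) : ℝ) ≤ Real.log n / LL n ^ (D + 1)).card : ℝ) ≤
      ((Icc 1 ⌊√(x : ℝ)⌋₊).card : ℝ) +
      (((Icc 1 x).filter fun n => ∃ k, (k ∈ K ∨ n - k ∈ K) ∧ Cand n k).card : ℝ) := by
    exact_mod_cast hc2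
  have hc4 : ((Icc 1 ⌊√(x : ℝ)⌋₊).card : ℝ) ≤ √(x : ℝ) := by
    rw [Nat.card_Icc, Nat.add_sub_cancel]
    exact Nat.floor_le (Real.sqrt_nonneg _)
  have hc5 := hF x K hx
  have hKc : (K.card : ℝ) ≤ T + 1 := by
    rw [hK, card_range]
    push_cast
    linarith [Nat.floor_le hT0]
  have hc6 : C * K.card * (x * LL (x : ℝ) ^ D / Real.log (x : ℝ)) ≤
      C * (T + 1) * (x * LL (x : ℝ) ^ D / Real.log (x : ℝ)) := by
    apply mul_le_mul_of_nonneg_right _ (by positivity)
    exact mul_le_mul_of_nonneg_left hKc (by linarith)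
  rw [div_le_iff₀ hx0]
  calc _ ≤ √(x : ℝ) + C * (T + 1) * (x * LL (x : ℝ) ^ D / Real.log (x : ℝ)) := by linarith
    _ = _ := by
      field_simp

end TPW
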