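import Mathlib
import Pool.Agent.TPW.Targets

/-!
# TPW: FINA, from MAIN to the first half
-/

set_option autoImplicit false

open scoped Classical

namespace TPW

open Finset

namespace FINA_

theorem one_le_LL {x : ℕ} (hx : 16 ≤ x) : 1 ≤ LL x := by
  have h16 : (16 : ℝ) ≤ (x : ℝ) := by exact_mod_cast hx
  have h1 : Real.exp 1 ≤ Real.log 16 := by
    have h2 : Real.log 16 = 4 * Real.log 2 := by
      rw [show (16 : ℝ) = 2 ^ 4 by norm_num, Real.log_pow]; norm_num
    rw [h2]
    have := Real.log_two_gt_d9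
    have := Real.exp_one_lt_d9
    linarith
  have h3 : Real.exp 1 ≤ Real.log x := h1.trans (Real.log_le_log (by norm_num) h16)
  have h4 : Real.log (Real.exp 1) ≤ Real.log (Real.log x) :=
    Real.log_le_log (Real.exp_pos _) h3
  rwa [Real.log_exp] at h4

theorem log_pos' {x : ℕ} (hx : 16 ≤ x) : 0 < Real.log x := by
  apply Real.log_pos
  have : (16 : ℝ) ≤ (x : ℝ) := by exact_mod_cast hx
  linarith

/-- first kind -/
theorem bound1 {C : ℝ} {D x0 : ℕ} (hC : 1 ≤ C) (hM : ∀ x : ℕ, x0 ≤ x → ∀ a c : ℕ,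
    1 ≤ a → a ≤ x → (c = 1 ∨ c = 2) →
    (((Icc 1 x).filter fun m => 3 ≤ m ∧ (Nat.totient m / c + a).Prime).card : ℝ)
      ≤ C * (x * LL x ^ D / Real.log x)) (x : ℕ) (hx0 : x0 ≤ x) (hx : 16 ≤ x) (k : ℕ) :
    (((Icc 1 x).filter fun n => Cand n k).card : ℝ) ≤ C * (x * LL x ^ D / Real.log x) := by
  have hpos : 0 ≤ C * (x * LL x ^ D / Real.log x) := by
    have := one_le_LL hx
    have := log_pos' hx
    positivity
  by_cases hem : ((Icc 1 x).filter fun n => Cand n k) = ∅
  · rw [hem]; simpa using hpos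
  · obtain ⟨n0, hn0⟩ := Finset.nonempty_iff_ne_empty.mpr hem
    rw [Finset.mem_filter, Finset.mem_Icc] at hn0
    obtain ⟨⟨_, hn0x⟩, _, hk, _⟩ := hn0
    have hphi := Nat.totient_le k
    refine le_trans ?_ (hM x hx0 (Nat.totient k + 1) 2 (by omega) (by omega) (Or.inr rfl))
    norm_cast
    refine le_trans (Finset.card_le_card ?_) (Finset.card_image_le (f := fun m => m + k))
    intro n hn
    rw [Finset.mem_filter, Finset.mem_Icc] at hn
    obtain ⟨⟨hn1, hnx⟩, hk1, hk2, hpr⟩ := hn
    rw [Finset.mem_image]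
    refine ⟨n - k, ?_, by omega⟩
    rw [Finset.mem_filter, Finset.mem_Icc]
    refine ⟨⟨by omega, by omega⟩, by omega, ?_⟩
    have : Nat.totient (n - k) / 2 + (Nat.totient k + 1) = qv n k := by
      unfold qv; ring
    rw [this]
    exact hpr

/-- second kind -/
theorem bound2 {C : ℝ} {D x0 : ℕ} (hC : 1 ≤ C) (hM : ∀ x : ℕ, x0 ≤ x → ∀ a c : ℕ,
    1 ≤ a → a ≤ x → (c = 1 ∨ c = 2) →
    (((Icc 1 x).filter fun m => 3 ≤ m ∧ (Nat.totient m / c + a).Prime).card : ℝ)
      ≤ C * (x * LL x ^ D / Real.log x)) (x : ℕ) (hx0 : x0 ≤ x) (hx : 16 ≤ x) (j : ℕ) :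
    (((Icc 1 x).filter fun n => ∃ k, n - k = j ∧ Cand n k).card : ℝ)
      ≤ C * (x * LL x ^ D / Real.log x) + 2 := by
  have hpos : 0 ≤ C * (x * LL x ^ D / Real.log x) := by
    have := one_le_LL hx
    have := log_pos' hx
    positivity
  by_cases hem : ((Icc 1 x).filter fun n => ∃ k, n - k = j ∧ Cand n k) = ∅
  · rw [hem]
    simp only [Finset.card_empty, Nat.cast_zero]
    linarith
  · obtain ⟨n0, hn0⟩ := Finset.nonempty_iff_ne_empty.mpr hem
    rw [Finset.mem_filter, Finset.mem_Icc] at hn0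
    obtain ⟨⟨_, hn0x⟩, k0, hk0, hk1, hk2, _⟩ := hn0
    have hphi := Nat.totient_le j
    have hmain := hM x hx0 (Nat.totient j / 2 + 1) 1 (by omega) (by omega) (Or.inl rfl)
    have hcard : ((Icc 1 x).filter fun n => ∃ k, n - k = j ∧ Cand n k).card ≤
        ((Icc 1 x).filter fun m => 3 ≤ m ∧
          (Nat.totient m / 1 + (Nat.totient j / 2 + 1)).Prime).card + 2 := by
      have hsub : ((Icc 1 x).filter fun n => ∃ k, n - k = j ∧ Cand n k) ⊆
          (((Icc 1 x).filter fun m => 3 ≤ m ∧
            (Nat.totient m / 1 + (Nat.totient j / 2 + 1)).Prime).image (fun m => m + j)) ∪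
            {1 + j, 2 + j} := by
        intro n hn
        rw [Finset.mem_filter, Finset.mem_Icc] at hn
        obtain ⟨⟨hn1, hnx⟩, k, hkj, hk1, hk2, hpr⟩ := hn
        rw [Finset.mem_union, Finset.mem_image, Finset.mem_insert, Finset.mem_singleton]
        by_cases h3 : 3 ≤ k
        · left
          refine ⟨k, ?_, by omega⟩
          rw [Finset.mem_filter, Finset.mem_Icc]
          refine ⟨⟨by omega, by omega⟩, h3, ?_⟩
          have : Nat.totient k / 1 + (Nat.totient j / 2 + 1) = qv n k := by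
            unfold qv; rw [hkj, Nat.div_one]; ring
          rw [this]
          exact hpr
        · right
          omega
      refine le_trans (Finset.card_le_card hsub) (le_trans (Finset.card_union_le _ _) ?_)
      exact Nat.add_le_add Finset.card_image_le (Finset.card_insert_le _ _)
    have : (((Icc 1 x).filter fun n => ∃ k, n - k = j ∧ Cand n k).card : ℝ) ≤
        (((Icc 1 x).filter fun m => 3 ≤ m ∧
          (Nat.totient m / 1 + (Nat.totient j / 2 + 1)).Prime).card : ℝ) + 2 := by
      exact_mod_cast hcard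
    linarith

end FINA_

theorem p_FINA (h : T_MAIN) : T_FINA := by
  obtain ⟨C, D, x0, hC, hx016, hM⟩ := h
  have hlx0 : 0 < Real.log x0 := FINA_.log_pos' hx016
  refine ⟨2 * C + 2 + Real.log x0, D, by linarith, fun x K hx => ?_⟩
  have hL := FINA_.log_pos' hx
  have hl := FINA_.one_le_LL hx
  have hlD : 1 ≤ LL x ^ D := one_le_pow₀ hl
  have hx1 : (16 : ℝ) ≤ (x : ℝ) := by exact_mod_cast hx
  set T : ℝ := x * LL x ^ D / Real.log x with hT
  have hT1 : 1 ≤ T := by
    rw [hT, le_div_iff₀ hL, one_mul]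
    have h1 : Real.log x ≤ x := (Real.log_le_sub_one_of_pos (by linarith)).trans (by linarith)
    nlinarith
  by_cases hxx : x0 ≤ x
  · have hsub : ((Icc 1 x).filter fun n => ∃ k, (k ∈ K ∨ n - k ∈ K) ∧ Cand n k) ⊆
        K.biUnion (fun j => ((Icc 1 x).filter fun n => Cand n j) ∪
          ((Icc 1 x).filter fun n => ∃ k, n - k = j ∧ Cand n k)) := by
      intro n hn
      rw [Finset.mem_filter] at hn
      obtain ⟨hn1, k, hk, hc⟩ := hn
      rw [Finset.mem_biUnion]
      rcases hk with hk | hk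
      · exact ⟨k, hk, Finset.mem_union_left _ (Finset.mem_filter.mpr ⟨hn1, hc⟩)⟩
      · exact ⟨n - k, hk, Finset.mem_union_right _
          (Finset.mem_filter.mpr ⟨hn1, k, rfl, hc⟩)⟩
    have hle : (((Icc 1 x).filter fun n => ∃ k, (k ∈ K ∨ n - k ∈ K) ∧ Cand n k).card : ℝ) ≤
        ∑ j ∈ K, ((((Icc 1 x).filter fun n => Cand n j) ∪
          ((Icc 1 x).filter fun n => ∃ k, n - k = j ∧ Cand n k)).card : ℝ) := by
      have := le_trans (Finset.card_le_card hsub) Finset.card_biUnion_le
      exact_mod_cast this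
    refine hle.trans ?_
    have hb : ∀ j ∈ K, ((((Icc 1 x).filter fun n => Cand n j) ∪
          ((Icc 1 x).filter fun n => ∃ k, n - k = j ∧ Cand n k)).card : ℝ) ≤
          (2 * C + 2) * T := by
      intro j _
      have h1 := FINA_.bound1 hC hM x hxx hx j
      have h2 := FINA_.bound2 hC hM x hxx hx j
      have h3 : ((((Icc 1 x).filter fun n => Cand n j) ∪
          ((Icc 1 x).filter fun n => ∃ k, n - k = j ∧ Cand n k)).card : ℝ) ≤
          (((Icc 1 x).filter fun n => Cand n j).card : ℝ) +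
          (((Icc 1 x).filter fun n => ∃ k, n - k = j ∧ Cand n k).card : ℝ) := by
        exact_mod_cast Finset.card_union_le _ _
      rw [← hT] at h1 h2
      nlinarith
    refine (Finset.sum_le_sum hb).trans ?_
    rw [Finset.sum_const, nsmul_eq_mul]
    have hK : (0 : ℝ) ≤ K.card := Nat.cast_nonneg _
    have hT0 : 0 ≤ T := by linarith
    have : (K.card : ℝ) * ((2 * C + 2) * T) = (2 * C + 2) * K.card * T := by ring
    rw [this]
    refine mul_le_mul_of_nonneg_right ?_ hT0
    refine mul_le_mul_of_nonneg_right (by linarith) hK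
  · push Not at hxx
    by_cases hK : K = ∅
    · subst hK
      simp
    · have hKc : (1 : ℝ) ≤ K.card := by
        exact_mod_cast Finset.card_pos.mpr (Finset.nonempty_iff_ne_empty.mpr hK)
      have hcx : (((Icc 1 x).filter fun n => ∃ k, (k ∈ K ∨ n - k ∈ K) ∧ Cand n k).card : ℝ)
          ≤ x := by
        have : ((Icc 1 x).filter fun n => ∃ k, (k ∈ K ∨ n - k ∈ K) ∧ Cand n k).card ≤ x := by
          refine (Finset.card_filter_le _ _).trans ?_
          simp
        exact_mod_cast this
      refine hcx.trans ?_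
      have hLx : Real.log x ≤ Real.log x0 :=
        Real.log_le_log (by linarith) (by exact_mod_cast hxx.le)
      have h1 : (x : ℝ) ≤ Real.log x0 * T := by
        rw [hT, mul_div_assoc', le_div_iff₀ hL]
        have hx0' : (0 : ℝ) ≤ x := by linarith
        calc (x : ℝ) * Real.log x ≤ x * Real.log x0 := mul_le_mul_of_nonneg_left hLx hx0'
          _ = Real.log x0 * (x * 1) := by ring
          _ ≤ Real.log x0 * (x * LL x ^ D) :=
            mul_le_mul_of_nonneg_left (mul_le_mul_of_nonneg_left hlD hx0') hlx0.le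
      have hT0 : 0 ≤ T := by linarith
      calc (x : ℝ) ≤ Real.log x0 * T := h1
        _ ≤ (2 * C + 2 + Real.log x0) * T :=
            mul_le_mul_of_nonneg_right (by linarith) hT0
        _ = (2 * C + 2 + Real.log x0) * 1 * T := by ring
        _ ≤ (2 * C + 2 + Real.log x0) * K.card * T := by
            refine mul_le_mul_of_nonneg_right ?_ hT0
            exact mul_le_mul_of_nonneg_left hKc (by linarith)

end TPW
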