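import Mathlib
import Pool.Agent.TPW.Targets

/-!
# MAIN: the values `φ(m)/c + a` are rarely prime
-/

set_option autoImplicit false

open scoped Classical

namespace TPW

open Finset Filter

namespace MAIN_

/-- the inequality for the parameter `y` -/
theorem ev_y (R : ℝ) (hR : 1 ≤ R) : ∀ᶠ x : ℕ in atTop,
    Real.log x + 1 ≤ Real.exp (Real.log x / (R * LL x)) ∧ 1 ≤ Real.log x ∧ 1 ≤ LL x := by
  have hR0 : 0 < R := by linarith
  have h1 : ∀ᶠ u : ℝ in atTop, 2 * R * Real.log u ^ 2 ≤ u := by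
    have h := (Real.isLittleO_pow_log_id_atTop (n := 2)).bound
      (show (0 : ℝ) < 1 / (2 * R) by positivity)
    filter_upwards [h, eventually_ge_atTop (1 : ℝ)] with u hu hu1
    rw [Real.norm_eq_abs, Real.norm_eq_abs, abs_of_nonneg (sq_nonneg _), id_eq,
      abs_of_nonneg (by linarith)] at hu
    calc 2 * R * Real.log u ^ 2 ≤ 2 * R * (1 / (2 * R) * u) :=
          mul_le_mul_of_nonneg_left hu (by positivity)
      _ = u := by field_simp
  have h2 : Tendsto (fun x : ℕ => Real.log (x : ℝ)) atTop atTop :=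
    Real.tendsto_log_atTop.comp tendsto_natCast_atTop_atTop
  have h3 : ∀ᶠ u : ℝ in atTop, (2 * R * Real.log u ^ 2 ≤ u ∧ 3 ≤ u ∧ 1 ≤ Real.log u) :=
    h1.and ((eventually_ge_atTop 3).and (Real.tendsto_log_atTop.eventually_ge_atTop 1))
  filter_upwards [h2.eventually h3] with x hx
  obtain ⟨hx1, hx2, hx3⟩ := hx
  refine ⟨?_, by linarith, hx3⟩
  have hL0 : 0 < Real.log (x : ℝ) := by linarith
  have hl0 : 0 < LL x := by unfold LL; linarith
  have h4 : Real.log (Real.log x + 1) ≤ 2 * LL x := by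
    unfold LL
    rw [show 2 * Real.log (Real.log (x : ℝ)) = Real.log (Real.log (x : ℝ) ^ 2) by
      rw [Real.log_pow]; norm_num]
    apply Real.log_le_log (by linarith)
    nlinarith
  have h5 : 2 * LL x ≤ Real.log x / (R * LL x) := by
    rw [le_div_iff₀ (by positivity)]
    have : 2 * LL x * (R * LL x) = 2 * R * LL x ^ 2 := by ring
    rw [this]
    exact hx1
  calc Real.log x + 1 = Real.exp (Real.log (Real.log x + 1)) :=
        (Real.exp_log (by linarith)).symm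
    _ ≤ Real.exp (Real.log x / (R * LL x)) := Real.exp_le_exp.2 (h4.trans h5)

theorem ev_pi : ∀ᶠ x : ℕ in atTop,
    (((Icc 1 x).filter Nat.Prime).card : ℝ) ≤ 3 * (x / Real.log x) := by
  have hlog4 : Real.log 4 < 2 := by
    rw [show (4 : ℝ) = 2 ^ 2 by norm_num, Real.log_pow]
    have := Real.log_two_lt_d9
    push_cast
    linarith
  have h := Chebyshev.eventually_primeCounting_le (ε := 1) one_pos
  have h2 := tendsto_natCast_atTop_atTop (R := ℝ) |>.eventually h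
  filter_upwards [h2, eventually_ge_atTop 2] with x hx hx2
  rw [Nat.floor_natCast] at hx
  have h3 : ((Icc 1 x).filter Nat.Prime).card = Nat.primeCounting x := by
    rw [Nat.primeCounting, Nat.primeCounting', Nat.count_eq_card_filter_range]
    congr 1
    ext p
    rw [mem_filter, mem_filter, mem_Icc, mem_range]
    constructor
    · rintro ⟨⟨_, h⟩, hp⟩
      exact ⟨by omega, hp⟩
    · rintro ⟨h, hp⟩
      exact ⟨⟨hp.one_le, by omega⟩, hp⟩
  rw [h3]
  refine hx.trans ?_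
  have hL : 0 ≤ (x : ℝ) / Real.log x := by
    apply div_nonneg (Nat.cast_nonneg _)
    exact Real.log_natCast_nonneg x
  rw [mul_div_assoc]
  apply mul_le_mul_of_nonneg_right _ hL
  linarith

/-- multiples of squares -/
theorem card_sq (x Y : ℕ) (hY : 1 ≤ Y) :
    (((Icc 1 x).filter fun m => ∃ P : ℕ, Y < P ∧ P ^ 2 ∣ m).card : ℝ) ≤ x / Y := by
  have hsub : ((Icc 1 x).filter fun m => ∃ P : ℕ, Y < P ∧ P ^ 2 ∣ m) ⊆
      (Ioc Y x).biUnion fun P => (Ioc 0 x).filter fun m => P ^ 2 ∣ m := by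
    intro m hm
    rw [mem_filter, mem_Icc] at hm
    obtain ⟨⟨hm1, hm2⟩, P, hP, hd⟩ := hm
    rw [mem_biUnion]
    have hle := Nat.le_of_dvd (by omega) hd
    refine ⟨P, mem_Ioc.2 ⟨hP, ?_⟩, mem_filter.2 ⟨mem_Ioc.2 ⟨by omega, hm2⟩, hd⟩⟩
    calc P ≤ P ^ 2 := Nat.le_self_pow (by norm_num) P
      _ ≤ m := hle
      _ ≤ x := hm2
  have h1 := (card_le_card hsub).trans card_biUnion_le
  have h2 : ∑ P ∈ Ioc Y x, ((Ioc 0 x).filter fun m => P ^ 2 ∣ m).card
      = ∑ P ∈ Ioc Y x, x / P ^ 2 := sum_congr rfl fun P _ => Nat.Ioc_filter_dvd_card_eq_div x (P ^ 2)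
  rw [h2] at h1
  have h3 : ((∑ P ∈ Ioc Y x, x / P ^ 2 : ℕ) : ℝ) ≤ x * ∑ P ∈ Ioc Y x, ((P : ℝ) ^ 2)⁻¹ := by
    push_cast
    rw [mul_sum]
    refine sum_le_sum fun P _ => ?_
    have := @Nat.cast_div_le ℝ _ _ _ x (P ^ 2)
    rw [← div_eq_mul_inv]
    exact_mod_cast this
  by_cases hYx : Y ≤ x
  · have h4 := sum_Ioc_inv_sq_le_sub (α := ℝ) (by omega : Y ≠ 0) hYx
    have h5 : (0 : ℝ) ≤ (x : ℝ)⁻¹ := by positivity
    calc (((Icc 1 x).filter fun m => ∃ P : ℕ, Y < P ∧ P ^ 2 ∣ m).card : ℝ)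
        ≤ ((∑ P ∈ Ioc Y x, x / P ^ 2 : ℕ) : ℝ) := by exact_mod_cast h1
      _ ≤ x * ∑ P ∈ Ioc Y x, ((P : ℝ) ^ 2)⁻¹ := h3
      _ ≤ x * (Y : ℝ)⁻¹ := mul_le_mul_of_nonneg_left (by linarith) (Nat.cast_nonneg _)
      _ = x / Y := (div_eq_mul_inv _ _).symm
  · have h4 : Ioc Y x = ∅ := Ioc_eq_empty (by omega)
    rw [h4, sum_empty] at h1
    have h5 : ((Icc 1 x).filter fun m => ∃ P : ℕ, Y < P ∧ P ^ 2 ∣ m).card = 0 := by omega
    rw [h5, Nat.cast_zero]
    positivity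

theorem harm (x : ℕ) : ∑ s ∈ Icc 1 x, (1 : ℝ) / s ≤ 1 + Real.log x := by
  have h := harmonic_le_one_add_log x
  rw [harmonic_eq_sum_Icc] at h
  push_cast at h
  refine le_trans (le_of_eq ?_) h
  exact sum_congr rfl fun s _ => one_div _

end MAIN_

open MAIN_ in
theorem p_MAIN (h1 : T_TWO) (h2 : T_SMO) (h3 : T_TOT) : T_MAIN := by
  obtain ⟨R, x1, hR, hx1, hsmo⟩ := h2
  obtain ⟨C2, D, x2, hC2, hx2, htwo⟩ := h1 R hR
  obtain ⟨x3, hx3⟩ := eventually_atTop.1 ((ev_y R hR).and ev_pi)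
  refine ⟨38 + 2 * C2, D, max (max x1 x2) x3, by linarith, ?_, ?_⟩
  · exact hx1.trans ((le_max_left _ _).trans (le_max_left _ _))
  intro x hx a c ha hax hc
  have hxx1 : x1 ≤ x := ((le_max_left _ _).trans (le_max_left _ _)).trans hx
  have hxx2 : x2 ≤ x := ((le_max_right _ _).trans (le_max_left _ _)).trans hx
  have hxx3 : x3 ≤ x := (le_max_right _ _).trans hx
  obtain ⟨⟨hy, hL1, hl1⟩, hpi⟩ := hx3 x hxx3
  set L : ℝ := Real.log x with hL
  set l : ℝ := LL x with hl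
  set y : ℝ := Real.exp (L / (R * l)) with hydef
  set Y : ℕ := ⌊y⌋₊ with hY
  have hL0 : 0 < L := by linarith
  have hYL : L ≤ Y := by
    have := Nat.lt_floor_add_one y
    rw [← hY] at this
    linarith
  have hY1 : 1 ≤ Y := by
    have : (1 : ℝ) ≤ Y := hL1.trans hYL
    exact_mod_cast this
  have hx0 : 0 < x := by omega
  -- the four sets
  set S : Finset ℕ := (Icc 1 x).filter fun m => ∀ p : ℕ, p.Prime → p ∣ m → (p : ℝ) ≤ y with hS
  set T : Finset ℕ := (Icc 1 x).filter fun m => ∃ P : ℕ, Y < P ∧ P ^ 2 ∣ m with hT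
  set U1 : Finset ℕ := (((Icc 1 x).filter Nat.Prime) ×ˢ (Icc 1 12)).image fun z => z.1 * z.2
    with hU1
  set F : ℕ → Finset ℕ := fun s => if (1 ≤ Nat.totient s / c ∧ Nat.totient s / c ≤ x ∧
      Nat.Coprime (Nat.totient s / c) a ∧ Nat.totient s / c ≠ a ∧ y ≤ ((x / s : ℕ) : ℝ)) then
      (Icc 1 (x / s)).filter fun P => P.Prime ∧ (Nat.totient s / c * (P - 1) + a).Prime else ∅
    with hF
  set U2 : Finset ℕ := (Icc 1 x).biUnion fun s => (F s).image fun P => P * s with hU2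
  have hsub : ((Icc 1 x).filter fun m => 3 ≤ m ∧ (Nat.totient m / c + a).Prime) ⊆
      S ∪ (T ∪ (U1 ∪ U2)) := by
    intro m hm
    rw [mem_filter, mem_Icc] at hm
    obtain ⟨⟨hm1, hmx⟩, hm3, hmp⟩ := hm
    by_cases hSm : ∀ p : ℕ, p.Prime → p ∣ m → (p : ℝ) ≤ y
    · exact mem_union_left _ (mem_filter.2 ⟨mem_Icc.2 ⟨hm1, hmx⟩, hSm⟩)
    apply mem_union_right
    push Not at hSm
    obtain ⟨P, hP, hPm, hyP⟩ := hSm
    have hYP : Y < P := by
      have : (Y : ℝ) < P := lt_of_le_of_lt (Nat.floor_le (Real.exp_pos _).le) hyP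
      exact_mod_cast this
    by_cases hsq : P ^ 2 ∣ m
    · exact mem_union_left _ (mem_filter.2 ⟨mem_Icc.2 ⟨hm1, hmx⟩, P, hYP, hsq⟩)
    apply mem_union_right
    obtain ⟨s, rfl⟩ := hPm
    have hPs : ¬ P ∣ s := by
      intro hd
      apply hsq
      rw [pow_two]
      exact Nat.mul_dvd_mul_left P hd
    have hs1 : 1 ≤ s := by
      rcases Nat.eq_zero_or_pos s with h0 | h0
      · exact absurd (h0 ▸ dvd_zero P) hPs
      · exact h0
    have hPx : P ≤ x := (Nat.le_mul_of_pos_right P hs1).trans hmx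
    have hsx : s ≤ x := (Nat.le_mul_of_pos_left s hP.pos).trans hmx
    by_cases hs12 : s ≤ 12
    · apply mem_union_left
      exact mem_image.2 ⟨(P, s), mem_product.2 ⟨mem_filter.2 ⟨mem_Icc.2 ⟨hP.one_le, hPx⟩, hP⟩,
        mem_Icc.2 ⟨hs1, hs12⟩⟩, rfl⟩
    · apply mem_union_right
      obtain ⟨e1, e2, e3, e4, e5⟩ := h3.2 c (Nat.totient s / c) a P s hP hPs (by omega) hc ha rfl hmp
      have hPxs : P ≤ x / s := (Nat.le_div_iff_mul_le hs1).2 hmx
      refine mem_biUnion.2 ⟨s, mem_Icc.2 ⟨hs1, hsx⟩, mem_image.2 ⟨P, ?_, rfl⟩⟩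
      rw [hF]
      have hcond : (1 ≤ Nat.totient s / c ∧ Nat.totient s / c ≤ x ∧
        Nat.Coprime (Nat.totient s / c) a ∧ Nat.totient s / c ≠ a ∧ y ≤ ((x / s : ℕ) : ℝ)) := by
        refine ⟨by omega, e3.trans hsx, e4, e5, hyP.le.trans ?_⟩
        exact_mod_cast hPxs
      simp only [if_pos hcond]
      rw [mem_filter, mem_Icc]
      rw [e1] at hmp
      exact ⟨⟨hP.one_le, hPxs⟩, hP, hmp⟩
  have hcS : (S.card : ℝ) ≤ x / L := hsmo x hxx1
  have hcT : (T.card : ℝ) ≤ x / L := by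
    refine (card_sq x Y hY1).trans ?_
    exact div_le_div_of_nonneg_left (Nat.cast_nonneg _) hL0 hYL
  have hcU1 : (U1.card : ℝ) ≤ 36 * (x / L) := by
    have h4 : U1.card ≤ ((Icc 1 x).filter Nat.Prime).card * 12 := by
      refine card_image_le.trans ?_
      rw [card_product]
      simp
    have h5 : (U1.card : ℝ) ≤ ((((Icc 1 x).filter Nat.Prime).card * 12 : ℕ) : ℝ) := by
      exact_mod_cast h4
    push_cast at h5
    linarith
  have hlD : 1 ≤ l ^ D := one_le_pow₀ hl1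
  have hcF : ∀ s ∈ Icc 1 x, ((F s).card : ℝ) ≤ C2 * x * l ^ D / L ^ 2 * (1 / s) := by
    intro s hs
    rw [mem_Icc] at hs
    have hs0 : (0 : ℝ) < s := by exact_mod_cast (by omega : 0 < s)
    simp only [hF]
    split_ifs with hcond
    · obtain ⟨g1, g2, g3, g4, g5⟩ := hcond
      have h4 := htwo x hxx2 (Nat.totient s / c) a (x / s) g1 g2 ha hax g3 g4
        (Nat.div_le_self x s) g5
      refine h4.trans ?_
      have h5 : ((x / s : ℕ) : ℝ) ≤ x / s := Nat.cast_div_le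
      have h6 : C2 * ((x / s : ℕ) : ℝ) * l ^ D / L ^ 2 ≤ C2 * (x / s) * l ^ D / L ^ 2 := by
        apply div_le_div_of_nonneg_right _ (by positivity)
        apply mul_le_mul_of_nonneg_right _ (by positivity)
        exact mul_le_mul_of_nonneg_left h5 (by linarith)
      refine h6.trans (le_of_eq ?_)
      field_simp
    · rw [card_empty, Nat.cast_zero]
      positivity
  have hcU2 : (U2.card : ℝ) ≤ 2 * C2 * (x * l ^ D / L) := by
    have h4 : U2.card ≤ ∑ s ∈ Icc 1 x, (F s).card := by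
      refine card_biUnion_le.trans (sum_le_sum fun s _ => card_image_le)
    have h5 : (U2.card : ℝ) ≤ ∑ s ∈ Icc 1 x, ((F s).card : ℝ) := by exact_mod_cast h4
    have h6 := h5.trans (sum_le_sum hcF)
    rw [← mul_sum] at h6
    have h7 : C2 * x * l ^ D / L ^ 2 * ∑ s ∈ Icc 1 x, (1 : ℝ) / s
        ≤ C2 * x * l ^ D / L ^ 2 * (2 * L) := by
      apply mul_le_mul_of_nonneg_left _ (by positivity)
      have := harm x
      rw [← hL] at this
      linarith
    refine (h6.trans h7).trans (le_of_eq ?_)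
    field_simp
  have hxl : (x : ℝ) / L ≤ x * l ^ D / L := by
    apply div_le_div_of_nonneg_right _ hL0.le
    calc (x : ℝ) = x * 1 := (mul_one _).symm
      _ ≤ x * l ^ D := mul_le_mul_of_nonneg_left hlD (Nat.cast_nonneg _)
  have hcard : ((((Icc 1 x).filter fun m => 3 ≤ m ∧ (Nat.totient m / c + a).Prime).card : ℕ) : ℝ)
      ≤ S.card + (T.card + (U1.card + U2.card)) := by
    have h4 := card_le_card hsub
    have h5 := card_union_le S (T ∪ (U1 ∪ U2))
    have h6 := card_union_le T (U1 ∪ U2)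
    have h7 := card_union_le U1 U2
    exact_mod_cast (by omega : ((Icc 1 x).filter fun m => 3 ≤ m ∧
      (Nat.totient m / c + a).Prime).card ≤ S.card + (T.card + (U1.card + U2.card)))
  calc ((((Icc 1 x).filter fun m => 3 ≤ m ∧ (Nat.totient m / c + a).Prime).card : ℕ) : ℝ)
      ≤ S.card + (T.card + (U1.card + U2.card)) := hcard
    _ ≤ x / L + (x / L + (36 * (x / L) + 2 * C2 * (x * l ^ D / L))) := by linarith
    _ = 38 * (x / L) + 2 * C2 * (x * l ^ D / L) := by ring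
    _ ≤ 38 * (x * l ^ D / L) + 2 * C2 * (x * l ^ D / L) := by linarith
    _ = (38 + 2 * C2) * (x * l ^ D / L) := by ring

end TPW
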