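import Mathlib
import Pool.Agent.TPW.Targets
import Pool.Agent.QTw.MERT

/-!
# TPW, MUP: a crude upper bound in the second theorem of Mertens
-/

set_option autoImplicit false

open scoped Classical

namespace TPW

open Finset

namespace MUP_

theorem log3 : 1 < Real.log 3 := by
  rw [Real.lt_log_iff_exp_lt (by norm_num)]
  have := Real.exp_one_lt_d9
  linarith

theorem log_ge {z : ℕ} (hz : 3 ≤ z) : 1 < Real.log z :=
  lt_of_lt_of_le log3 (Real.log_le_log (by norm_num) (by exact_mod_cast hz))

theorem LL_nonneg {z : ℕ} (hz : 3 ≤ z) : 0 ≤ LL z := Real.log_nonneg (log_ge hz).le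

theorem small (z : ℕ) (hz : z ≤ 8) : B z ≤ 4 := by
  unfold B
  calc ∑ p ∈ (Icc 1 z).filter Nat.Prime, (1 : ℝ) / p
      ≤ ∑ p ∈ (Icc 1 z).filter Nat.Prime, (1 : ℝ) / 2 := by
        refine sum_le_sum fun p hp => ?_
        have h2 : (2 : ℝ) ≤ p := by exact_mod_cast (mem_filter.1 hp).2.two_le
        exact one_div_le_one_div_of_le (by norm_num) h2
    _ = (((Icc 1 z).filter Nat.Prime).card : ℝ) * (1 / 2) := by
        rw [sum_const, nsmul_eq_mul]
    _ ≤ 8 * (1 / 2) := by
        apply mul_le_mul_of_nonneg_right _ (by norm_num)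
        have h1 := card_filter_le (Icc 1 z) Nat.Prime
        rw [Nat.card_Icc] at h1
        have h2 : ((Icc 1 z).filter Nat.Prime).card ≤ 8 := by omega
        exact_mod_cast h2
    _ = 4 := by norm_num

theorem step (z : ℕ) (hz : 9 ≤ z) : B z ≤ B (Nat.sqrt z) + 4 := by
  set s := Nat.sqrt z with hs
  have hsz : s ≤ z := Nat.sqrt_le_self z
  have hz1 : (1 : ℝ) ≤ z := by exact_mod_cast (by omega : 1 ≤ z)
  have hlz : 1 < Real.log z := log_ge (by omega)
  have h1 : B z = B s + ∑ p ∈ (Ioc s z).filter Nat.Prime, (1 : ℝ) / p := by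
    unfold B
    rw [← sum_union]
    · congr 1
      ext p
      simp only [mem_union, mem_filter, mem_Icc, mem_Ioc]
      constructor
      · rintro ⟨⟨h1, h2⟩, h3⟩
        rcases Nat.lt_or_ge s p with h | h
        · exact Or.inr ⟨⟨h, h2⟩, h3⟩
        · exact Or.inl ⟨⟨h1, h⟩, h3⟩
      · rintro (⟨⟨h1, h2⟩, h3⟩ | ⟨⟨h1, h2⟩, h3⟩)
        · exact ⟨⟨h1, h2.trans hsz⟩, h3⟩
        · exact ⟨⟨h3.one_lt.le, h2⟩, h3⟩
    · rw [disjoint_left]
      intro p hp hp'
      have h2 := (mem_Icc.1 (mem_filter.1 hp).1).2
      have h3 := (mem_Ioc.1 (mem_filter.1 hp').1).1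
      omega
  have h2 : ∑ p ∈ (Ioc s z).filter Nat.Prime, (1 : ℝ) / p ≤ 4 := by
    calc ∑ p ∈ (Ioc s z).filter Nat.Prime, (1 : ℝ) / p
        ≤ ∑ p ∈ (Ioc s z).filter Nat.Prime, 2 / Real.log z * (Real.log p / p) := by
          refine sum_le_sum fun p hp => ?_
          rw [mem_filter, mem_Ioc] at hp
          have hp0 : (0 : ℝ) < p := by exact_mod_cast hp.2.pos
          have h3 : z ≤ p ^ 2 := by
            have h4 := Nat.lt_succ_sqrt z
            have h5 : s + 1 ≤ p := hp.1.1
            calc z ≤ (s + 1) * (s + 1) := h4.le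
              _ ≤ p * p := Nat.mul_le_mul h5 h5
              _ = p ^ 2 := by ring
          have h6 : Real.log z ≤ 2 * Real.log p := by
            have h7 : Real.log z ≤ Real.log ((p : ℝ) ^ 2) :=
              Real.log_le_log (by linarith) (by exact_mod_cast h3)
            rw [Real.log_pow] at h7
            exact_mod_cast h7
          have h8 : 1 ≤ 2 / Real.log z * Real.log p := by
            rw [div_mul_eq_mul_div, le_div_iff₀ (by linarith)]
            linarith
          calc (1 : ℝ) / p ≤ (2 / Real.log z * Real.log p) / p :=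
                div_le_div_of_nonneg_right h8 hp0.le
            _ = _ := by ring
      _ = 2 / Real.log z * ∑ p ∈ (Ioc s z).filter Nat.Prime, Real.log p / p := by
          rw [mul_sum]
      _ ≤ 2 / Real.log z * ∑ p ∈ (Iic z).filter Nat.Prime, Real.log p / p := by
          apply mul_le_mul_of_nonneg_left _ (by positivity)
          refine sum_le_sum_of_subset_of_nonneg ?_ fun p hp _ => ?_
          · intro p hp
            rw [mem_filter, mem_Ioc] at hp
            rw [mem_filter, mem_Iic]
            exact ⟨hp.1.2, hp.2⟩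
          · have h3 : (1 : ℝ) ≤ p := by exact_mod_cast (mem_filter.1 hp).2.one_lt.le
            exact div_nonneg (Real.log_nonneg h3) (by linarith)
      _ ≤ 2 / Real.log z * (Real.log z + Real.log 4) := by
          apply mul_le_mul_of_nonneg_left _ (by positivity)
          have h3 := Pool.Agent.QTw.MERT_.mertens (z : ℝ) hz1
          rw [Nat.floor_natCast] at h3
          exact h3
      _ ≤ 2 / Real.log z * (Real.log z + Real.log z) := by
          apply mul_le_mul_of_nonneg_left _ (by positivity)
          have h3 : Real.log 4 ≤ Real.log z :=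
            Real.log_le_log (by norm_num) (by exact_mod_cast (by omega : 4 ≤ z))
          linarith
      _ = 4 := by
          field_simp
          norm_num
  linarith

theorem LL_sqrt (z : ℕ) (hz : 9 ≤ z) : LL (Nat.sqrt z : ℕ) ≤ LL z - Real.log 2 := by
  have h3 : 3 ≤ Nat.sqrt z := by
    rw [Nat.le_sqrt]
    omega
  have h4 := log_ge h3
  have hlz : 1 < Real.log z := log_ge (by omega)
  have h5 : Real.log (Nat.sqrt z : ℕ) ≤ Real.log z / 2 := by
    have h6 : ((Nat.sqrt z : ℕ) : ℝ) ^ 2 ≤ z := by exact_mod_cast Nat.sqrt_le' z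
    have h7 : Real.log (((Nat.sqrt z : ℕ) : ℝ) ^ 2) ≤ Real.log z :=
      Real.log_le_log (by positivity) h6
    rw [Real.log_pow] at h7
    push_cast at h7
    linarith
  unfold LL
  rw [← Real.log_div (by linarith) (by norm_num)]
  exact Real.log_le_log (by linarith) h5

end MUP_

open MUP_ in
theorem p_MUP : T_MUP := by
  refine ⟨8, by norm_num, fun z => ?_⟩
  induction z using Nat.strong_induction_on with
  | _ z ih =>
    intro hz
    have h0 := LL_nonneg hz
    rcases Nat.lt_or_ge z 9 with h | h
    · have := small z (by omega)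
      linarith
    · have h3 : 3 ≤ Nat.sqrt z := by
        rw [Nat.le_sqrt]
        omega
      have h4 : Nat.sqrt z < z := Nat.sqrt_lt_self (by omega)
      have h5 := ih _ h4 h3
      have h6 := step z h
      have h7 := LL_sqrt z h
      have h8 := Real.log_two_gt_d9
      linarith

end TPW
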