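import Mathlib
import Pool.Agent.TPW.Targets

/-!
# OMG: the sum of `1/p` over the prime divisors of one number
-/

set_option autoImplicit false

open scoped Classical

namespace TPW

open Finset

namespace OMG_

theorem exp_one_le_log {x : ℕ} (hx : 16 ≤ x) : Real.exp 1 ≤ Real.log x := by
  have h1 : Real.log 16 ≤ Real.log x := by
    refine Real.log_le_log (by norm_num) ?_
    exact_mod_cast hx
  have h2 : Real.log 16 = 4 * Real.log 2 := by
    rw [show (16 : ℝ) = 2 ^ 4 by norm_num, Real.log_pow]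
    norm_num
  have h3 := Real.log_two_gt_d9
  have h4 := Real.exp_one_lt_d9
  linarith

theorem one_le_LL {x : ℕ} (hx : 16 ≤ x) : 1 ≤ LL x := by
  unfold LL
  rw [Real.le_log_iff_exp_le ((Real.exp_pos 1).trans_le (exp_one_le_log hx))]
  exact exp_one_le_log hx

/-- the small primes -/
theorem small (C1 : ℝ) (hC1 : 1 ≤ C1) (h : ∀ z : ℕ, 3 ≤ z → B z ≤ C1 * (1 + LL z)) {x : ℕ}
    (hx : 16 ≤ x) (S : Finset ℕ) (hS : ∀ p ∈ S, p.Prime ∧ (p : ℝ) ≤ Real.log x) :
    ∑ p ∈ S, (1 : ℝ) / p ≤ C1 * (2 + Real.log (LL x)) := by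
  have hL := exp_one_le_log hx
  have hl := one_le_LL hx
  have hL0 : 0 < Real.log x := (Real.exp_pos 1).trans_le hL
  have hll : 0 ≤ Real.log (LL x) := Real.log_nonneg hl
  set z := max ⌊Real.log x⌋₊ 3 with hz
  have h1 : ∑ p ∈ S, (1 : ℝ) / p ≤ B z := by
    unfold B
    refine sum_le_sum_of_subset_of_nonneg (fun p hp => ?_) fun p _ _ => by positivity
    obtain ⟨hpp, hpl⟩ := hS p hp
    rw [mem_filter, mem_Icc]
    exact ⟨⟨hpp.one_lt.le, (Nat.le_floor hpl).trans (le_max_left _ _)⟩, hpp⟩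
  have h2 : LL z ≤ 1 + Real.log (LL x) := by
    unfold LL
    by_cases h3 : 3 ≤ ⌊Real.log x⌋₊
    · rw [hz, max_eq_left h3]
      have h4 : ((⌊Real.log x⌋₊ : ℕ) : ℝ) ≤ Real.log x := Nat.floor_le hL0.le
      have h5 : (3 : ℝ) ≤ ((⌊Real.log x⌋₊ : ℕ) : ℝ) := by exact_mod_cast h3
      have h6 : Real.log ((⌊Real.log x⌋₊ : ℕ) : ℝ) ≤ Real.log (Real.log x) :=
        Real.log_le_log (by linarith) h4
      have h7 := Real.log_le_log (Real.log_pos (by linarith)) h6
      linarith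
    · rw [hz, max_eq_right (by omega)]
      have h4 : 0 < Real.log ((3 : ℕ) : ℝ) := Real.log_pos (by norm_num)
      have h5 := Real.log_le_sub_one_of_pos h4
      have h6 := Real.log_le_sub_one_of_pos (show (0 : ℝ) < ((3 : ℕ) : ℝ) by norm_num)
      have h7 : ((3 : ℕ) : ℝ) = 3 := by norm_num
      have h8 : 0 ≤ Real.log (Real.log (Real.log x)) := hll
      linarith
  refine h1.trans ((h z (le_max_right _ _)).trans ?_)
  exact mul_le_mul_of_nonneg_left (by linarith) (by linarith)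

/-- the large primes -/
theorem large {x M : ℕ} (hx : 16 ≤ x) (hM : 1 ≤ M) (hMx : M ≤ x) (S : Finset ℕ)
    (hSM : S ⊆ M.primeFactors) (hS : ∀ p ∈ S, Real.log x < (p : ℝ)) :
    ∑ p ∈ S, (1 : ℝ) / p ≤ 1 := by
  have hL := exp_one_le_log hx
  have hl := one_le_LL hx
  have hL0 : 0 < Real.log x := (Real.exp_pos 1).trans_le hL
  have h1 : (∏ p ∈ S, p) ≤ x := by
    refine (Nat.le_of_dvd hM ?_).trans hMx
    exact (prod_dvd_prod_of_subset _ _ _ hSM).trans (Nat.prod_primeFactors_dvd M)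
  have h2 : Real.log x ^ S.card ≤ x := by
    calc Real.log x ^ S.card = ∏ p ∈ S, Real.log x := by rw [prod_const]
      _ ≤ ∏ p ∈ S, (p : ℝ) := prod_le_prod (fun _ _ => hL0.le) fun p hp => (hS p hp).le
      _ = ((∏ p ∈ S, p : ℕ) : ℝ) := by push_cast; rfl
      _ ≤ x := by exact_mod_cast h1
  have h3 := Real.log_le_log (pow_pos hL0 _) h2
  rw [Real.log_pow] at h3
  have h4 : (S.card : ℝ) ≤ Real.log x := by
    have h5 : (S.card : ℝ) * 1 ≤ S.card * Real.log (Real.log x) :=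
      mul_le_mul_of_nonneg_left hl (Nat.cast_nonneg _)
    linarith
  calc ∑ p ∈ S, (1 : ℝ) / p ≤ ∑ p ∈ S, 1 / Real.log x :=
        sum_le_sum fun p hp => one_div_le_one_div_of_le hL0 (hS p hp).le
    _ = S.card / Real.log x := by rw [sum_const, nsmul_eq_mul, mul_one_div]
    _ ≤ 1 := by rw [div_le_one hL0]; exact h4

end OMG_

/-- OMG -/
theorem p_OMG (h : T_MUP) : T_OMG := by
  obtain ⟨C1, hC1, hB⟩ := h
  refine ⟨Real.exp (2 * C1 + 1), ⌈C1⌉₊, Real.one_le_exp (by linarith), fun x hx M hM hMx => ?_⟩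
  have hl := OMG_.one_le_LL hx
  have hl0 : 0 < LL x := by linarith
  have h1 := OMG_.small C1 hC1 hB hx (M.primeFactors.filter fun p => (p : ℝ) ≤ Real.log x)
    (fun p hp => ⟨Nat.prime_of_mem_primeFactors (mem_filter.1 hp).1, (mem_filter.1 hp).2⟩)
  have h2 := OMG_.large hx hM hMx (M.primeFactors.filter fun p => ¬ (p : ℝ) ≤ Real.log x)
    (filter_subset _ _) (fun p hp => not_le.1 (mem_filter.1 hp).2)
  have h3 : ∑ p ∈ M.primeFactors, (1 : ℝ) / p ≤ C1 * (2 + Real.log (LL x)) + 1 := by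
    rw [← sum_filter_add_sum_filter_not M.primeFactors (fun p => (p : ℝ) ≤ Real.log x)]
    exact add_le_add h1 h2
  refine (Real.exp_le_exp.2 h3).trans ?_
  have h4 : C1 * (2 + Real.log (LL x)) + 1 = (2 * C1 + 1) + Real.log (LL x) * C1 := by ring
  rw [h4, Real.exp_add]
  refine mul_le_mul_of_nonneg_left ?_ (Real.exp_pos _).le
  rw [Real.exp_mul, Real.exp_log hl0, ← Real.rpow_natCast]
  exact Real.rpow_le_rpow_of_exponent_le hl (Nat.le_ceil C1)

end TPW
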