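import Mathlib
import Pool.Agent.TPW.Targets

/-!
# Project TPW, target RES: the residue classes to be removed
-/

set_option autoImplicit false

open scoped Classical

namespace TPW

open Finset

/-- the second residue class -/
theorem RES_aux (h a p : ℕ) (hp : p.Prime) (hh : ¬ p ∣ h) (hd : ¬ (p : ℤ) ∣ (a : ℤ) - h) :
    ∃ r : ℕ, r < p ∧ r ≠ 0 ∧ ∀ n, 1 ≤ n → n % p = r → p ∣ h * (n - 1) + a := by
  have : Fact p.Prime := ⟨hp⟩
  have hh0 : (h : ZMod p) ≠ 0 := by rwa [Ne, ZMod.natCast_eq_zero_iff]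
  have hd0 : (h : ZMod p) - a ≠ 0 := by
    intro h0
    apply hd
    rw [← ZMod.intCast_eq_intCast_iff_dvd_sub]
    push_cast
    exact sub_eq_zero.mp h0
  refine ⟨(((h : ZMod p) - a) / h).val, ZMod.val_lt _, ?_, ?_⟩
  · rw [Ne, ZMod.val_eq_zero]
    exact div_ne_zero hd0 hh0
  · intro n hn hr
    have hn' : (n : ZMod p) = ((h : ZMod p) - a) / h := by
      rw [← ZMod.natCast_mod, hr, ZMod.natCast_val, ZMod.cast_id]
    rw [← ZMod.natCast_eq_zero_iff]
    push_cast [Nat.cast_sub hn]
    rw [hn']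
    field_simp
    ring

/-- the residue classes -/
noncomputable def RES_Om (h a p : ℕ) : Finset ℕ :=
  if hp : p.Prime then
    if hh : ¬ p ∣ h ∧ ¬ (p : ℤ) ∣ (a : ℤ) - h then
      {0, (RES_aux h a p hp hh.1 hh.2).choose}
    else {0}
  else ∅

theorem p_RES : T_RES := by
  intro h a _ _ _ _
  refine ⟨RES_Om h a, ?_, ?_, ?_, ?_, ?_⟩
  · intro p
    unfold RES_Om
    split_ifs with hp hh
    · exact Finset.card_le_two
    · simp
    · simp
  · intro p c hc
    unfold RES_Om at hc
    split_ifs at hc with hp hh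
    · rcases Finset.mem_insert.mp hc with rfl | hc
      · exact hp.pos
      · rw [Finset.mem_singleton] at hc
        rw [hc]
        exact (RES_aux h a p hp hh.1 hh.2).choose_spec.1
    · rw [Finset.mem_singleton] at hc
      rw [hc]
      exact hp.pos
    · simp at hc
  · intro p hp
    unfold RES_Om
    rw [dif_pos hp]
    split_ifs with hh
    · exact Finset.card_pos.mpr ⟨0, by simp⟩
    · simp
  · intro p hp h1 h2
    unfold RES_Om
    rw [dif_pos hp, dif_pos ⟨h1, h2⟩]
    exact Finset.card_pair (RES_aux h a p hp h1 h2).choose_spec.2.1.symm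
  · intro p n hp hn hc
    unfold RES_Om at hc
    rw [dif_pos hp] at hc
    split_ifs at hc with hh
    · rcases Finset.mem_insert.mp hc with h0 | hc
      · exact Or.inl (Nat.dvd_of_mod_eq_zero h0)
      · rw [Finset.mem_singleton] at hc
        exact Or.inr ((RES_aux h a p hp hh.1 hh.2).choose_spec.2.2 n hn hc)
    · rw [Finset.mem_singleton] at hc
      exact Or.inl (Nat.dvd_of_mod_eq_zero hc)

end TPW
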