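import Mathlib
import Pool.Agent.TPW.Targets

/-!
# TPW-SIEVE: Brun's pure sieve
-/

set_option autoImplicit false

open scoped Classical

namespace TPW

open Finset

namespace SIEVE_

theorem bonf_set (h1 : T_BONF) (W : Finset ℕ) (k : ℕ) (hk : Even k) :
    (if W = ∅ then (1 : ℝ) else 0) ≤
      ∑ S ∈ W.powerset.filter (fun S => S.card ≤ k), (-1 : ℝ) ^ S.card := by
  have h := h1 W.card k hk
  have e1 : ∑ S ∈ W.powerset.filter (fun S => S.card ≤ k), (-1 : ℝ) ^ S.card
      = ∑ j ∈ range (k + 1), (-1 : ℝ) ^ j * (W.card.choose j : ℝ) := by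
    rw [← Finset.sum_fiberwise_of_maps_to (s := W.powerset.filter (fun S => S.card ≤ k))
      (t := range (k + 1)) (g := fun S => S.card)]
    · apply Finset.sum_congr rfl
      intro j hj
      have hj' : j ≤ k := by
        have := Finset.mem_range.mp hj
        omega
      have e2 : (W.powerset.filter (fun S => S.card ≤ k)).filter (fun S => S.card = j)
          = W.powersetCard j := by
        ext S
        simp only [Finset.mem_filter, Finset.mem_powerset, Finset.mem_powersetCard]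
        constructor
        · rintro ⟨⟨a, _⟩, c⟩
          exact ⟨a, c⟩
        · rintro ⟨a, c⟩
          exact ⟨⟨a, by omega⟩, c⟩
      rw [e2]
      rw [Finset.sum_congr rfl (g := fun _ => (-1 : ℝ) ^ j)]
      · rw [Finset.sum_const, Finset.card_powersetCard, nsmul_eq_mul, mul_comm]
      · intro S hS
        rw [(Finset.mem_powersetCard.mp hS).2]
    · intro S hS
      have := (Finset.mem_filter.mp hS).2
      exact Finset.mem_range.mpr (by omega)
  rw [e1]
  have h' : ((if W.card = 0 then (1 : ℤ) else 0 : ℤ) : ℝ) ≤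
      ((∑ j ∈ range (k + 1), (-1 : ℤ) ^ j * (W.card.choose j : ℤ) : ℤ) : ℝ) := by
    exact_mod_cast h
  push_cast at h'
  simpa [Finset.card_eq_zero] using h'

theorem geom_le (m : ℝ) (hm : 0 ≤ m) (k : ℕ) :
    ∑ j ∈ range (k + 1), m ^ j ≤ (1 + m) ^ k := by
  induction k with
  | zero => simp
  | succ k ih =>
    rw [Finset.sum_range_succ]
    have h1 : m ^ k ≤ (1 + m) ^ k := pow_le_pow_left₀ hm (by linarith) k
    have h2 : m * m ^ k ≤ m * (1 + m) ^ k := mul_le_mul_of_nonneg_left h1 hm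
    calc ∑ j ∈ range (k + 1), m ^ j + m ^ (k + 1)
        ≤ (1 + m) ^ k + m * m ^ k := by
          rw [pow_succ, mul_comm (m ^ k) m]
          linarith
      _ ≤ (1 + m) ^ k + m * (1 + m) ^ k := by linarith
      _ = (1 + m) ^ (k + 1) := by ring

theorem err_le (P : Finset ℕ) (k : ℕ) :
    ∑ S ∈ P.powerset.filter (fun S => S.card ≤ k), (2 : ℝ) ^ S.card
      ≤ (1 + 2 * (P.card : ℝ)) ^ k := by
  have e1 : ∑ S ∈ P.powerset.filter (fun S => S.card ≤ k), (2 : ℝ) ^ S.card
      = ∑ j ∈ range (k + 1), (2 : ℝ) ^ j * (P.card.choose j : ℝ) := by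
    rw [← Finset.sum_fiberwise_of_maps_to (s := P.powerset.filter (fun S => S.card ≤ k))
      (t := range (k + 1)) (g := fun S => S.card)]
    · apply Finset.sum_congr rfl
      intro j hj
      have hj' : j ≤ k := by
        have := Finset.mem_range.mp hj
        omega
      have e2 : (P.powerset.filter (fun S => S.card ≤ k)).filter (fun S => S.card = j)
          = P.powersetCard j := by
        ext S
        simp only [Finset.mem_filter, Finset.mem_powerset, Finset.mem_powersetCard]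
        constructor
        · rintro ⟨⟨a, _⟩, c⟩
          exact ⟨a, c⟩
        · rintro ⟨a, c⟩
          exact ⟨⟨a, by omega⟩, c⟩
      rw [e2]
      rw [Finset.sum_congr rfl (g := fun _ => (2 : ℝ) ^ j)]
      · rw [Finset.sum_const, Finset.card_powersetCard, nsmul_eq_mul, mul_comm]
      · intro S hS
        rw [(Finset.mem_powersetCard.mp hS).2]
    · intro S hS
      have := (Finset.mem_filter.mp hS).2
      exact Finset.mem_range.mpr (by omega)
  rw [e1]
  calc ∑ j ∈ range (k + 1), (2 : ℝ) ^ j * (P.card.choose j : ℝ)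
      ≤ ∑ j ∈ range (k + 1), (2 * (P.card : ℝ)) ^ j := by
        apply Finset.sum_le_sum
        intro j _
        rw [mul_pow]
        apply mul_le_mul_of_nonneg_left _ (by positivity)
        have := Nat.choose_le_pow P.card j
        exact_mod_cast this
    _ ≤ _ := geom_le _ (by positivity) k

/-- the tail and the main term -/
theorem main_le (P : Finset ℕ) (a : ℕ → ℝ) (k : ℕ) (b : ℝ) (ha0 : ∀ p ∈ P, 0 ≤ a p)
    (ha1 : ∀ p ∈ P, a p ≤ 1) (hb : ∑ p ∈ P, a p ≤ 2 * b) (hb0 : 0 ≤ b) (hk : 8 * b ≤ k) :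
    ∑ S ∈ P.powerset.filter (fun S => S.card ≤ k), (-1 : ℝ) ^ S.card * ∏ p ∈ S, a p
      ≤ Real.exp (-∑ p ∈ P, a p) + Real.exp (-(2 * b)) := by
  have hg0 : ∀ S ∈ P.powerset, 0 ≤ ∏ p ∈ S, a p := fun S hS =>
    Finset.prod_nonneg (fun p hp => ha0 p (Finset.mem_powerset.mp hS hp))
  have hall : ∑ S ∈ P.powerset, (-1 : ℝ) ^ S.card * ∏ p ∈ S, a p
      ≤ Real.exp (-∑ p ∈ P, a p) := by
    have e1 : ∑ S ∈ P.powerset, (-1 : ℝ) ^ S.card * ∏ p ∈ S, a p = ∏ p ∈ P, (1 + (-a p)) := by
      rw [Finset.prod_one_add]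
      apply Finset.sum_congr rfl
      intro S _
      rw [Finset.prod_neg]
    rw [e1, ← Finset.sum_neg_distrib, Real.exp_sum]
    apply Finset.prod_le_prod
    · intro p hp
      linarith [ha1 p hp]
    · intro p hp
      have := Real.add_one_le_exp (-a p)
      linarith
  have htail : ∑ S ∈ P.powerset.filter (fun S => ¬ S.card ≤ k), ∏ p ∈ S, a p
      ≤ Real.exp (-(2 * b)) := by
    have e1 : ∑ S ∈ P.powerset.filter (fun S => ¬ S.card ≤ k), ∏ p ∈ S, a p
        ≤ ∑ S ∈ P.powerset, Real.exp (-((k : ℝ) + 1)) * ∏ p ∈ S, (Real.exp 1 * a p) := by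
      calc ∑ S ∈ P.powerset.filter (fun S => ¬ S.card ≤ k), ∏ p ∈ S, a p
          ≤ ∑ S ∈ P.powerset.filter (fun S => ¬ S.card ≤ k),
              Real.exp (-((k : ℝ) + 1)) * ∏ p ∈ S, (Real.exp 1 * a p) := by
            apply Finset.sum_le_sum
            intro S hS
            obtain ⟨hS1, hS2⟩ := Finset.mem_filter.mp hS
            rw [Finset.prod_mul_distrib, Finset.prod_const, ← Real.exp_nat_mul, ← mul_assoc,
              ← Real.exp_add]
            have h3 : (k : ℝ) + 1 ≤ S.card := by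
              have : k + 1 ≤ S.card := by omega
              exact_mod_cast this
            have h4 : 1 ≤ Real.exp (-((k : ℝ) + 1) + (S.card : ℝ) * 1) :=
              Real.one_le_exp (by linarith)
            nlinarith [hg0 S hS1]
        _ ≤ _ := by
            apply Finset.sum_le_sum_of_subset_of_nonneg (Finset.filter_subset _ _)
            intro S hS _
            apply mul_nonneg (Real.exp_pos _).le
            apply Finset.prod_nonneg
            intro p hp
            exact mul_nonneg (Real.exp_pos _).le (ha0 p (Finset.mem_powerset.mp hS hp))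
    refine e1.trans ?_
    rw [← Finset.mul_sum, ← Finset.prod_one_add]
    have e2 : ∏ p ∈ P, (1 + Real.exp 1 * a p) ≤ Real.exp (Real.exp 1 * ∑ p ∈ P, a p) := by
      rw [Finset.mul_sum, Real.exp_sum]
      apply Finset.prod_le_prod
      · intro p hp
        have := mul_nonneg (Real.exp_pos 1).le (ha0 p hp)
        linarith
      · intro p hp
        have := Real.add_one_le_exp (Real.exp 1 * a p)
        linarith
    calc Real.exp (-((k : ℝ) + 1)) * ∏ p ∈ P, (1 + Real.exp 1 * a p)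
        ≤ Real.exp (-((k : ℝ) + 1)) * Real.exp (Real.exp 1 * ∑ p ∈ P, a p) :=
          mul_le_mul_of_nonneg_left e2 (Real.exp_pos _).le
      _ = Real.exp (-((k : ℝ) + 1) + Real.exp 1 * ∑ p ∈ P, a p) := by rw [Real.exp_add]
      _ ≤ _ := by
          apply Real.exp_le_exp.mpr
          have h5 : Real.exp 1 < 2.7182818286 := Real.exp_one_lt_d9
          have h6 : Real.exp 1 * ∑ p ∈ P, a p ≤ Real.exp 1 * (2 * b) :=
            mul_le_mul_of_nonneg_left hb (Real.exp_pos _).le
          have h7 : Real.exp 1 * (2 * b) ≤ 2.7182818286 * (2 * b) :=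
            mul_le_mul_of_nonneg_right h5.le (by linarith)
          linarith
  have hsplit := Finset.sum_filter_add_sum_filter_not P.powerset (fun S => S.card ≤ k)
    (fun S => (-1 : ℝ) ^ S.card * ∏ p ∈ S, a p)
  have hneg : -∑ S ∈ P.powerset.filter (fun S => ¬ S.card ≤ k), (-1 : ℝ) ^ S.card * ∏ p ∈ S, a p
      ≤ ∑ S ∈ P.powerset.filter (fun S => ¬ S.card ≤ k), ∏ p ∈ S, a p := by
    rw [← Finset.sum_neg_distrib]
    apply Finset.sum_le_sum
    intro S hS
    have h8 := hg0 S (Finset.mem_filter.mp hS).1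
    rcases neg_one_pow_eq_or ℝ S.card with h9 | h9 <;> rw [h9] <;> linarith
  linarith

end SIEVE_

open SIEVE_ in
theorem p_SIEVE (h1 : T_BONF) (h2 : T_CRT) : T_SIEVE := by
  intro N z Ω hz hΩ2 hΩ hN
  set P := (Icc 1 z).filter Nat.Prime with hP
  have hPp : ∀ p ∈ P, p.Prime := fun p hp => (Finset.mem_filter.mp hp).2
  have hB0 : 0 ≤ B z := Finset.sum_nonneg (fun p _ => by positivity)
  obtain ⟨k, hkev, hk1, hk2⟩ : ∃ k : ℕ, Even k ∧ 8 * B z ≤ k ∧ (k : ℝ) ≤ 8 * B z + 2 := by
    refine ⟨2 * ⌈4 * B z⌉₊, even_two_mul _, ?_, ?_⟩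
    · push_cast
      have := Nat.le_ceil (4 * B z)
      linarith
    · push_cast
      have := (Nat.ceil_lt_add_one (by linarith : 0 ≤ 4 * B z)).le
      linarith
  set a : ℕ → ℝ := fun p => ((Ω p).card : ℝ) / p with ha
  have ha0 : ∀ p ∈ P, 0 ≤ a p := fun p _ => by positivity
  have ha1 : ∀ p ∈ P, a p ≤ 1 := by
    intro p hp
    have hp0 : (0 : ℝ) < p := by exact_mod_cast (hPp p hp).pos
    rw [ha]
    simp only
    rw [div_le_one hp0]
    have : (Ω p).card ≤ (range p).card :=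
      Finset.card_le_card (fun c hc => Finset.mem_range.mpr (hΩ p c hc))
    rw [Finset.card_range] at this
    exact_mod_cast this
  have ha2 : ∑ p ∈ P, a p ≤ 2 * B z := by
    unfold B
    rw [Finset.mul_sum]
    apply Finset.sum_le_sum
    intro p _
    rw [ha]
    simp only
    rw [mul_one_div]
    apply div_le_div_of_nonneg_right _ (by positivity)
    exact_mod_cast hΩ2 p
  set F := P.powerset.filter (fun S => S.card ≤ k) with hF
  set A : Finset ℕ → Finset ℕ := fun S => (Icc 1 N).filter fun n => ∀ p ∈ S, n % p ∈ Ω p with hA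
  -- the count
  have hcount : (((Icc 1 N).filter fun n => ∀ p ∈ P, n % p ∉ Ω p).card : ℝ)
      ≤ ∑ S ∈ F, (-1 : ℝ) ^ S.card * ((A S).card : ℝ) := by
    have e1 : (((Icc 1 N).filter fun n => ∀ p ∈ P, n % p ∉ Ω p).card : ℝ)
        = ∑ n ∈ Icc 1 N, (if P.filter (fun p => n % p ∈ Ω p) = ∅ then (1 : ℝ) else 0) := by
      rw [Finset.card_filter]
      push_cast
      apply Finset.sum_congr rfl
      intro n _
      congr 1
      rw [Finset.filter_eq_empty_iff]
    have e2 : ∑ S ∈ F, (-1 : ℝ) ^ S.card * ((A S).card : ℝ)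
        = ∑ n ∈ Icc 1 N, ∑ S ∈ F, (if ∀ p ∈ S, n % p ∈ Ω p then (-1 : ℝ) ^ S.card else 0) := by
      rw [Finset.sum_comm]
      apply Finset.sum_congr rfl
      intro S _
      rw [← Finset.sum_filter, Finset.sum_const, nsmul_eq_mul, mul_comm]
    rw [e1, e2]
    apply Finset.sum_le_sum
    intro n _
    refine (bonf_set h1 _ k hkev).trans (le_of_eq ?_)
    rw [← Finset.sum_filter]
    apply Finset.sum_congr _ (fun _ _ => rfl)
    ext S
    rw [hF]
    simp only [Finset.mem_filter, Finset.mem_powerset]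
    constructor
    · rintro ⟨h3, h4⟩
      refine ⟨⟨fun p hp => (Finset.mem_filter.mp (h3 hp)).1, h4⟩, fun p hp =>
        (Finset.mem_filter.mp (h3 hp)).2⟩
    · rintro ⟨⟨h3, h4⟩, h5⟩
      exact ⟨fun p hp => Finset.mem_filter.mpr ⟨h3 hp, h5 p hp⟩, h4⟩
  have hAS : ∀ S ∈ F, (-1 : ℝ) ^ S.card * ((A S).card : ℝ)
      ≤ N * ((-1 : ℝ) ^ S.card * ∏ p ∈ S, a p) + 2 ^ S.card := by
    intro S hS
    have hSP : S ⊆ P := Finset.mem_powerset.mp (Finset.mem_filter.mp hS).1
    have h3 := abs_le.mp (h2 N Ω S (fun p hp => hPp p (hSP hp)) hΩ2 hΩ)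
    rcases neg_one_pow_eq_or ℝ S.card with h9 | h9
    · rw [h9]
      linarith [h3.2]
    · rw [h9]
      linarith [h3.1]
  have hsum : ∑ S ∈ F, (-1 : ℝ) ^ S.card * ((A S).card : ℝ)
      ≤ N * ∑ S ∈ F, ((-1 : ℝ) ^ S.card * ∏ p ∈ S, a p) + ∑ S ∈ F, (2 : ℝ) ^ S.card := by
    rw [Finset.mul_sum, ← Finset.sum_add_distrib]
    exact Finset.sum_le_sum hAS
  have hmain := main_le P a k (B z) ha0 ha1 ha2 hB0 hk1
  have herr := err_le P k
  have hzr : (2 : ℝ) ≤ z := by exact_mod_cast hz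
  have hcard : 1 + 2 * (P.card : ℝ) ≤ (z : ℝ) ^ 2 := by
    have h3 : P ⊆ Icc 2 z := by
      intro p hp
      have h4 := (hPp p hp).two_le
      have h5 := (Finset.mem_Icc.mp (Finset.mem_filter.mp hp).1).2
      exact Finset.mem_Icc.mpr ⟨h4, h5⟩
    have h4 := Finset.card_le_card h3
    rw [Nat.card_Icc] at h4
    have h5 : P.card + 1 ≤ z := by omega
    have h6 : (P.card : ℝ) + 1 ≤ z := by exact_mod_cast h5
    nlinarith
  have herr2 : ∑ S ∈ F, (2 : ℝ) ^ S.card ≤ N * Real.exp (-(2 * B z)) := by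
    have hz0 : (0 : ℝ) < z := by linarith
    have hz1 : (1 : ℝ) ≤ z := by linarith
    have h3 : (1 + 2 * (P.card : ℝ)) ^ k ≤ (z : ℝ) ^ (16 * B z + 4) := by
      calc (1 + 2 * (P.card : ℝ)) ^ k ≤ ((z : ℝ) ^ 2) ^ k :=
            pow_le_pow_left₀ (by positivity) hcard k
        _ = (z : ℝ) ^ ((2 * k : ℕ) : ℝ) := by
            rw [← pow_mul, Real.rpow_natCast]
        _ ≤ (z : ℝ) ^ (16 * B z + 4) := by
            apply Real.rpow_le_rpow_of_exponent_le hz1
            push_cast
            linarith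
    have h4 : Real.exp (2 * B z) ≤ (z : ℝ) ^ (4 * B z) := by
      have h5 : Real.exp 1 ≤ (z : ℝ) ^ (2 : ℝ) := by
        have h6 : Real.exp 1 < 2.7182818286 := Real.exp_one_lt_d9
        rw [Real.rpow_two]
        nlinarith
      calc Real.exp (2 * B z) = Real.exp 1 ^ (2 * B z) := by
            rw [← Real.exp_mul, one_mul]
        _ ≤ ((z : ℝ) ^ (2 : ℝ)) ^ (2 * B z) :=
            Real.rpow_le_rpow (Real.exp_pos _).le h5 (by linarith)
        _ = (z : ℝ) ^ (4 * B z) := by
            rw [← Real.rpow_mul hz0.le]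
            congr 1
            ring
    have h7 : (∑ S ∈ F, (2 : ℝ) ^ S.card) * Real.exp (2 * B z) ≤ N := by
      calc (∑ S ∈ F, (2 : ℝ) ^ S.card) * Real.exp (2 * B z)
          ≤ (z : ℝ) ^ (16 * B z + 4) * (z : ℝ) ^ (4 * B z) :=
            mul_le_mul (herr.trans h3) h4 (Real.exp_pos _).le (Real.rpow_nonneg hz0.le _)
        _ = (z : ℝ) ^ (20 * B z + 4) := by
            rw [← Real.rpow_add hz0]
            congr 1
            ring
        _ ≤ (z : ℝ) ^ (20 * B z + 6) :=
            Real.rpow_le_rpow_of_exponent_le hz1 (by linarith)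
        _ ≤ N := hN
    rw [Real.exp_neg, ← div_eq_mul_inv, le_div_iff₀ (Real.exp_pos _)]
    exact h7
  have hN0 : (0 : ℝ) ≤ N := Nat.cast_nonneg N
  have hexp : Real.exp (-(2 * B z)) ≤ Real.exp (-∑ p ∈ P, a p) :=
    Real.exp_le_exp.mpr (by linarith)
  have h8 : (N : ℝ) * ∑ S ∈ F, ((-1 : ℝ) ^ S.card * ∏ p ∈ S, a p)
      ≤ N * (Real.exp (-∑ p ∈ P, a p) + Real.exp (-(2 * B z))) :=
    mul_le_mul_of_nonneg_left hmain hN0
  have h9 := mul_le_mul_of_nonneg_left hexp hN0
  calc (((Icc 1 N).filter fun n => ∀ p ∈ P, n % p ∉ Ω p).card : ℝ)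
      ≤ N * (Real.exp (-∑ p ∈ P, a p) + Real.exp (-(2 * B z))) + N * Real.exp (-(2 * B z)) := by
        linarith
    _ ≤ 3 * N * Real.exp (-∑ p ∈ P, a p) := by linarith

end TPW
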