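import Mathlib
import Pool.Agent.TPW.Targets

/-!
# SMO: smooth numbers by the method of Rankin
-/

set_option autoImplicit false

open scoped Classical

namespace TPW

open Finset

namespace SMO_

/-- an elementary inequality -/
lemma inv_le (t : ℝ) (ht : 0 ≤ t) (ht2 : t ^ 2 ≤ 1 / 2) : (1 - t)⁻¹ ≤ Real.exp (2 * t) := by
  have h1 : t < 1 := by nlinarith
  have h2 : 0 < 1 - t := by linarith
  rw [inv_le_iff_one_le_mul₀' h2]
  have h3 := Real.quadratic_le_exp_of_nonneg (x := 2 * t) (by linarith)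
  calc (1 : ℝ) ≤ (1 - t) * (1 + 2 * t + (2 * t) ^ 2 / 2) := by nlinarith
    _ ≤ (1 - t) * Real.exp (2 * t) := mul_le_mul_of_nonneg_left h3 h2.le

/-- the completely multiplicative function `m ^ (-σ)` -/
noncomputable def f (σ : ℝ) : ℕ →* ℝ where
  toFun m := (m : ℝ) ^ (-σ)
  map_one' := by simp
  map_mul' m n := by
    push_cast
    exact Real.mul_rpow (Nat.cast_nonneg _) (Nat.cast_nonneg _)

lemma f_apply (σ : ℝ) (m : ℕ) : f σ m = (m : ℝ) ^ (-σ) := rfl

/-- Rankin -/
lemma rankin (σ : ℝ) (hσ : 0 < σ) (w x : ℕ) (S : Finset ℕ)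
    (hS : ∀ m ∈ S, m ≠ 0 ∧ m ≤ x ∧ ∀ p, p.Prime → p ∣ m → p < w + 1) :
    (S.card : ℝ) ≤ (x : ℝ) ^ σ * ∏ p ∈ (w + 1).primesBelow, (1 - f σ p)⁻¹ := by
  have h := (EulerProduct.summable_and_hasSum_smoothNumbers_prod_primesBelow_geometric
    (f := f σ) (by
      intro p hp
      rw [f_apply, Real.norm_eq_abs, abs_of_nonneg (by positivity)]
      exact Real.rpow_lt_one_of_one_lt_of_neg (by exact_mod_cast hp.one_lt) (by linarith))
    (w + 1)).2
  have h' : HasSum (Set.indicator ((w + 1).smoothNumbers) (fun m => f σ m))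
      (∏ p ∈ (w + 1).primesBelow, (1 - f σ p)⁻¹) := by
    rw [← hasSum_subtype_iff_indicator]
    exact h
  have h2 : ∑ m ∈ S, Set.indicator ((w + 1).smoothNumbers) (fun m => f σ m) m ≤
      ∏ p ∈ (w + 1).primesBelow, (1 - f σ p)⁻¹ := by
    refine sum_le_hasSum S (fun m _ => ?_) h'
    refine Set.indicator_nonneg (fun m _ => ?_) m
    rw [f_apply]
    positivity
  have hxs : 0 ≤ (x : ℝ) ^ σ := by positivity
  calc (S.card : ℝ) = ∑ m ∈ S, (1 : ℝ) := by simp
    _ ≤ ∑ m ∈ S, (x : ℝ) ^ σ * Set.indicator ((w + 1).smoothNumbers) (fun m => f σ m) m := by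
        refine Finset.sum_le_sum fun m hm => ?_
        obtain ⟨h0, hx, hp⟩ := hS m hm
        rw [Set.indicator_of_mem (by
          rw [Nat.mem_smoothNumbers']
          exact hp), f_apply, Real.rpow_neg (Nat.cast_nonneg _), ← div_eq_mul_inv]
        have hm0 : (0 : ℝ) < (m : ℝ) ^ σ :=
          Real.rpow_pos_of_pos (by exact_mod_cast Nat.pos_of_ne_zero h0) _
        rw [one_le_div hm0]
        exact Real.rpow_le_rpow (Nat.cast_nonneg _) (by exact_mod_cast hx) hσ.le
    _ = (x : ℝ) ^ σ * ∑ m ∈ S, Set.indicator ((w + 1).smoothNumbers) (fun m => f σ m) m := by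
        rw [Finset.mul_sum]
    _ ≤ _ := mul_le_mul_of_nonneg_left h2 hxs

/-- the product over the primes -/
lemma prod_le (σ : ℝ) (w : ℕ) (c : ℝ) (hσ : 1 / 2 ≤ σ)
    (hc : ∀ p : ℕ, p.Prime → p ≤ w → (p : ℝ) ^ (1 - σ) ≤ c) :
    ∏ p ∈ (w + 1).primesBelow, (1 - f σ p)⁻¹ ≤ Real.exp (2 * c * B w) := by
  have h1 : ∀ p ∈ (w + 1).primesBelow, (1 - f σ p)⁻¹ ≤ Real.exp (2 * c * (1 / p)) := by
    intro p hp
    rw [Nat.mem_primesBelow] at hp
    have hp2 : (2 : ℝ) ≤ p := by exact_mod_cast hp.2.two_le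
    have hp0 : (0 : ℝ) < p := by linarith
    have h2 : f σ p = (p : ℝ) ^ (1 - σ) * (1 / p) := by
      rw [f_apply, Real.rpow_sub hp0, Real.rpow_one, Real.rpow_neg hp0.le]
      field_simp
    have h3 : f σ p ≤ (1 / 2 : ℝ) ^ (1 / 2 : ℝ) := by
      rw [f_apply, Real.rpow_neg hp0.le, ← Real.inv_rpow hp0.le]
      calc ((p : ℝ)⁻¹) ^ σ ≤ (1 / 2 : ℝ) ^ σ := by
            refine Real.rpow_le_rpow (by positivity) ?_ (by linarith)
            rw [one_div]
            exact inv_anti₀ (by norm_num) hp2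
        _ ≤ (1 / 2 : ℝ) ^ (1 / 2 : ℝ) :=
            Real.rpow_le_rpow_of_exponent_ge (by norm_num) (by norm_num) hσ
    have h0 : 0 ≤ f σ p := by
      rw [f_apply]
      positivity
    have h4 : f σ p ^ 2 ≤ 1 / 2 := by
      calc f σ p ^ 2 ≤ ((1 / 2 : ℝ) ^ (1 / 2 : ℝ)) ^ 2 := pow_le_pow_left₀ h0 h3 2
        _ = 1 / 2 := by
            rw [← Real.rpow_natCast, ← Real.rpow_mul (by norm_num)]
            norm_num
    refine (inv_le _ h0 h4).trans (Real.exp_le_exp.2 ?_)
    rw [h2]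
    have h5 := hc p hp.2 (by omega)
    have : (p : ℝ) ^ (1 - σ) * (1 / p) ≤ c * (1 / p) :=
      mul_le_mul_of_nonneg_right h5 (by positivity)
    linarith
  calc ∏ p ∈ (w + 1).primesBelow, (1 - f σ p)⁻¹
      ≤ ∏ p ∈ (w + 1).primesBelow, Real.exp (2 * c * (1 / p)) := by
        refine Finset.prod_le_prod (fun p hp => ?_) h1
        rw [Nat.mem_primesBelow] at hp
        rw [inv_nonneg, sub_nonneg, f_apply]
        exact Real.rpow_le_one_of_one_le_of_nonpos (by exact_mod_cast hp.2.one_lt.le)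
          (by linarith)
    _ = Real.exp (∑ p ∈ (w + 1).primesBelow, 2 * c * (1 / (p : ℝ))) := by
        rw [Real.exp_sum]
    _ = Real.exp (2 * c * B w) := by
        rw [← Finset.mul_sum]
        congr 2
        unfold B
        refine Finset.sum_congr ?_ fun _ _ => rfl
        ext p
        simp only [Nat.mem_primesBelow, Finset.mem_filter, Finset.mem_Icc]
        constructor
        · rintro ⟨h, hp⟩
          exact ⟨⟨hp.one_lt.le, by omega⟩, hp⟩
        · rintro ⟨⟨_, h⟩, hp⟩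
          exact ⟨by omega, hp⟩

/-- growth -/
lemma growth (K : ℝ) : ∃ x0 : ℕ, 16 ≤ x0 ∧ ∀ x : ℕ, x0 ≤ x → 1 ≤ LL x ∧
    K * LL x ≤ Real.log x := by
  have h1 : Filter.Tendsto (fun x : ℕ => Real.log (x : ℝ)) Filter.atTop Filter.atTop :=
    Real.tendsto_log_atTop.comp tendsto_natCast_atTop_atTop
  have h2 : Filter.Tendsto (fun x : ℕ => LL (x : ℝ)) Filter.atTop Filter.atTop :=
    Real.tendsto_log_atTop.comp h1
  have h3 := (Real.isLittleO_log_id_atTop.comp_tendsto h1).def
    (c := 1 / (|K| + 1)) (by positivity)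
  obtain ⟨N, hN⟩ := Filter.eventually_atTop.1
    ((h2.eventually_ge_atTop 1).and (h3.and (h1.eventually_ge_atTop 1)))
  refine ⟨max N 16, le_max_right _ _, fun x hx => ?_⟩
  obtain ⟨ha, hb, hc⟩ := hN x ((le_max_left _ _).trans hx)
  refine ⟨ha, ?_⟩
  simp only [Function.comp, id, Real.norm_eq_abs] at hb
  have hl : 0 ≤ LL (x : ℝ) := by linarith
  have hl' : |Real.log (Real.log (x : ℝ))| = LL x := abs_of_nonneg hl
  have hL : |Real.log (x : ℝ)| = Real.log x := abs_of_nonneg (by linarith)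
  rw [hl', hL] at hb
  have hK : K ≤ |K| + 1 := by linarith [le_abs_self K]
  calc K * LL x ≤ (|K| + 1) * LL x := mul_le_mul_of_nonneg_right hK hl
    _ ≤ (|K| + 1) * (1 / (|K| + 1) * Real.log x) :=
        mul_le_mul_of_nonneg_left hb (by positivity)
    _ = Real.log x := by field_simp

end SMO_

open SMO_

theorem p_SMO (h : T_MUP) : T_SMO := by
  obtain ⟨C1, hC1, hMUP⟩ := h
  set R : ℝ := 12 * C1 + 2 with hR
  have hR0 : 0 < R := by linarith
  obtain ⟨x0, hx0, hg⟩ := growth (2 * R)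
  refine ⟨R, x0, by linarith, hx0, fun x hx => ?_⟩
  obtain ⟨hl, hLl⟩ := hg x hx
  set l : ℝ := LL x with hldef
  set L : ℝ := Real.log x with hLdef
  have hl0 : 0 < l := by linarith
  have hL0 : 0 < L := lt_of_lt_of_le (by positivity) hLl
  have hx1 : (1 : ℝ) ≤ x := by
    have : 1 ≤ x := by omega
    exact_mod_cast this
  have hxpos : (0 : ℝ) < x := by linarith
  have hel : Real.exp l = L := by
    rw [hldef, LL, Real.exp_log hL0]
  have heL : Real.exp L = x := by
    rw [hLdef, Real.exp_log hxpos]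
  have hL1 : 1 ≤ L := by
    rw [← hel]
    exact Real.one_le_exp hl0.le
  set y : ℝ := Real.exp (L / (R * l)) with hy
  set w : ℕ := ⌊y⌋₊ with hw
  have hq2 : 2 ≤ L / (R * l) := by
    rw [le_div_iff₀ (by positivity)]
    linarith
  have hy3 : 3 ≤ y := by
    have := Real.quadratic_le_exp_of_nonneg (x := L / (R * l)) (by linarith)
    rw [← hy] at this
    nlinarith
  have hw3 : 3 ≤ w := Nat.le_floor (by exact_mod_cast hy3)
  have hwy : (w : ℝ) ≤ y := Nat.floor_le (by linarith)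
  have hyx : y ≤ x := by
    rw [hy, ← heL]
    apply Real.exp_le_exp.2
    rw [div_le_iff₀ (by positivity)]
    have h1 : 1 ≤ R * l := by nlinarith
    nlinarith
  set σ : ℝ := 1 - R * l / L with hσ
  have hσ2 : 1 / 2 ≤ σ := by
    have : R * l / L ≤ 1 / 2 := by
      rw [div_le_iff₀ hL0]
      linarith
    rw [hσ]
    linarith
  -- the count
  have hcount := rankin σ (by linarith) w x
    ((Icc 1 x).filter fun m => ∀ p : ℕ, p.Prime → p ∣ m → (p : ℝ) ≤ y) (by
      intro m hm
      rw [Finset.mem_filter, Finset.mem_Icc] at hm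
      refine ⟨by omega, hm.1.2, fun p hp hpm => ?_⟩
      have := hm.2 p hp hpm
      have h2 : p ≤ w := Nat.le_floor this
      omega)
  refine hcount.trans ?_
  have hprod := prod_le σ w (Real.exp 1) hσ2 (by
    intro p hp hpw
    have hp0 : (0 : ℝ) < p := by exact_mod_cast hp.pos
    have h1 : 1 - σ = R * l / L := by rw [hσ]; ring
    rw [h1]
    have h2 : (p : ℝ) ≤ y := le_trans (by exact_mod_cast hpw) hwy
    calc (p : ℝ) ^ (R * l / L) ≤ y ^ (R * l / L) :=
          Real.rpow_le_rpow hp0.le h2 (by positivity)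
      _ = Real.exp 1 := by
          rw [hy, ← Real.exp_mul]
          congr 1
          field_simp)
  have hB := hMUP w hw3
  have hLLw : LL w ≤ l := by
    unfold LL
    rw [hldef, LL]
    have hw0 : (0 : ℝ) < w := by
      have : 0 < w := by omega
      exact_mod_cast this
    have h1 : Real.log w ≤ Real.log x := Real.log_le_log hw0 (hwy.trans hyx)
    have h2 : 0 < Real.log w := Real.log_pos (by
      have : 1 < w := by omega
      exact_mod_cast this)
    exact Real.log_le_log h2 h1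
  have hB2 : B w ≤ 2 * C1 * l := by
    refine hB.trans ?_
    nlinarith
  have hprod2 : ∏ p ∈ (w + 1).primesBelow, (1 - f σ p)⁻¹ ≤ Real.exp (12 * C1 * l) := by
    refine hprod.trans (Real.exp_le_exp.2 ?_)
    have he : Real.exp 1 ≤ 3 := by linarith [Real.exp_one_lt_d9]
    have he0 : 0 < Real.exp 1 := Real.exp_pos 1
    have h3 : 2 * Real.exp 1 * B w ≤ 2 * Real.exp 1 * (2 * C1 * l) :=
      mul_le_mul_of_nonneg_left hB2 (by positivity)
    have h4 : 0 ≤ C1 * l := by positivity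
    nlinarith
  have hxσ : (x : ℝ) ^ σ = x * Real.exp (-(R * l)) := by
    rw [hσ, Real.rpow_sub hxpos, Real.rpow_one, div_eq_mul_inv, ← Real.rpow_neg hxpos.le,
      Real.rpow_def_of_pos hxpos, ← hLdef]
    congr 2
    field_simp
  calc (x : ℝ) ^ σ * ∏ p ∈ (w + 1).primesBelow, (1 - f σ p)⁻¹
      ≤ (x * Real.exp (-(R * l))) * Real.exp (12 * C1 * l) := by
        rw [hxσ]
        exact mul_le_mul_of_nonneg_left hprod2 (by positivity)
    _ = x * Real.exp (-(2 * l)) := by
        rw [mul_assoc, ← Real.exp_add]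
        congr 2
        rw [hR]
        ring
    _ ≤ x / L := by
        rw [div_eq_mul_inv, ← hel, ← Real.exp_neg]
        refine mul_le_mul_of_nonneg_left (Real.exp_le_exp.2 ?_) hxpos.le
        linarith

end TPW
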