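import Pool.Agent.TPW.Targets

/-!
# Project TPW: TOT, small values of the totient
-/

set_option autoImplicit false

open scoped Classical

namespace TPW

open Finset

namespace TOT_

theorem tot_ge (s : ℕ) (hs : 13 ≤ s) : 3 ≤ Nat.totient s := by
  by_contra h
  push Not at h
  have hpos : 0 < Nat.totient s := Nat.totient_pos.mpr (by omega)
  have hdvd : ∀ d, d ∣ s → Nat.totient d ≤ 2 := fun d hd =>
    (Nat.le_of_dvd hpos (Nat.totient_dvd_of_dvd hd)).trans (by omega)
  have h12 : s ∣ 12 := by
    rw [← Nat.factorization_prime_le_iff_dvd (by omega) (by norm_num)]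
    intro p hp
    by_cases h2 : p = 2
    · subst h2
      have e1 : 2 ≤ (12 : ℕ).factorization 2 :=
        (Nat.Prime.pow_dvd_iff_le_factorization hp (by norm_num)).mp (by norm_num)
      have e2 : s.factorization 2 ≤ 2 := by
        by_contra h3
        have h4 : 2 ^ 3 ∣ s :=
          (Nat.Prime.pow_dvd_iff_le_factorization hp (by omega)).mpr (by omega)
        have h5 := hdvd _ h4
        have h6 : Nat.totient (2 ^ 3) = 4 := by decide
        omega
      omega
    · by_cases h3 : p = 3
      · subst h3
        have e1 : 1 ≤ (12 : ℕ).factorization 3 :=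
          (Nat.Prime.pow_dvd_iff_le_factorization hp (by norm_num)).mp (by norm_num)
        have e2 : s.factorization 3 ≤ 1 := by
          by_contra h3
          have h4 : 3 ^ 2 ∣ s :=
            (Nat.Prime.pow_dvd_iff_le_factorization hp (by omega)).mpr (by omega)
          have h5 := hdvd _ h4
          have h6 : Nat.totient (3 ^ 2) = 6 := by decide
          omega
        omega
      · have h5 : ¬ p ∣ s := by
          intro h6
          have h7 := hdvd p h6
          rw [Nat.totient_prime hp] at h7
          have h8 := hp.two_le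
          omega
        rw [Nat.factorization_eq_zero_of_not_dvd h5]
        exact Nat.zero_le _
  have := Nat.le_of_dvd (by norm_num) h12
  omega

end TOT_

open TOT_ in
theorem p_TOT : T_TOT := by
  refine ⟨tot_ge, ?_⟩
  intro c h a P s hP hPs hs hc ha hh hq
  have h3 := tot_ge s hs
  have hcop : Nat.Coprime P s := (Nat.Prime.coprime_iff_not_dvd hP).mpr hPs
  have hmul : Nat.totient (P * s) = (P - 1) * Nat.totient s := by
    rw [Nat.totient_mul hcop, Nat.totient_prime hP]
  have hle : Nat.totient s ≤ s := Nat.totient_le s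
  have key : Nat.totient (P * s) / c = h * (P - 1) ∧ 2 ≤ h ∧ h ≤ s := by
    rcases hc with rfl | rfl
    · rw [Nat.div_one] at hh
      rw [Nat.div_one, hmul, hh, mul_comm]
      exact ⟨rfl, by omega, hle⟩
    · have hev : Even (Nat.totient s) := Nat.totient_even (by omega)
      obtain ⟨t, ht⟩ := hev
      have ht2 : h = t := by omega
      rw [hmul, ht, ht2]
      refine ⟨?_, by omega, by omega⟩
      have e1 : (P - 1) * (t + t) = 2 * (t * (P - 1)) := by ring
      rw [e1, Nat.mul_div_cancel_left _ (by norm_num)]
  obtain ⟨k1, k2, k3⟩ := key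
  have hP1 : 1 ≤ P - 1 := by
    have := hP.two_le
    omega
  have hcop2 : Nat.Coprime h a := by
    rw [k1] at hq
    have hg1 : Nat.gcd h a ∣ h * (P - 1) + a :=
      Nat.dvd_add (Dvd.dvd.mul_right (Nat.gcd_dvd_left h a) _) (Nat.gcd_dvd_right h a)
    rcases (Nat.dvd_prime hq).mp hg1 with h4 | h4
    · exact h4
    · exfalso
      have h5 : Nat.gcd h a ≤ a := Nat.le_of_dvd (by omega) (Nat.gcd_dvd_right h a)
      have h6 : 1 * 1 ≤ h * (P - 1) := Nat.mul_le_mul (by omega) hP1
      omega
  refine ⟨k1, k2, k3, hcop2, ?_⟩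
  intro hha
  subst hha
  rw [Nat.coprime_self] at hcop2
  omega

end TPW
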