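import Mathlib
import Pool.Agent.TPW.Targets

/-!
# Project TPW: target TWO
-/

set_option autoImplicit false

open scoped Classical

namespace TPW

open Finset

namespace TWO_

theorem one_le_LL {x : ℝ} (hx : 16 ≤ x) : 1 ≤ LL x := by
  have h2 : Real.log 16 = 4 * Real.log 2 := by
    rw [show (16 : ℝ) = 2 ^ 4 by norm_num, Real.log_pow]
    norm_num
  have h3 := Real.log_two_gt_d9
  have h4 := Real.exp_one_lt_d9
  have h5 : Real.log 16 ≤ Real.log x := Real.log_le_log (by norm_num) hx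
  have h6 : Real.exp 1 ≤ Real.log x := by linarith
  rw [LL, Real.le_log_iff_exp_le (by linarith)]
  exact h6

theorem ev (K : ℝ) : ∃ x1 : ℕ, ∀ x : ℕ, x1 ≤ x → 4 * K * LL x ^ 3 ≤ Real.log x := by
  have h1 : (fun y : ℝ => Real.log y ^ 3) =o[Filter.atTop] (id : ℝ → ℝ) :=
    Real.isLittleO_pow_log_id_atTop
  have hε : 0 < 1 / (4 * |K| + 1) := by positivity
  have h2 : ∀ᶠ y : ℝ in Filter.atTop, 4 * K * Real.log y ^ 3 ≤ y := by
    filter_upwards [h1.bound hε, Filter.eventually_ge_atTop (0 : ℝ)] with y hy hy0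
    rw [Real.norm_eq_abs, id, Real.norm_eq_abs, abs_of_nonneg hy0] at hy
    have h3 : 4 * K * Real.log y ^ 3 ≤ 4 * |K| * |Real.log y ^ 3| := by
      have h4 : 4 * K * Real.log y ^ 3 ≤ |4 * K * Real.log y ^ 3| := le_abs_self _
      rw [abs_mul, abs_mul, abs_of_pos (by norm_num : (0 : ℝ) < 4)] at h4
      exact h4
    refine h3.trans ?_
    calc 4 * |K| * |Real.log y ^ 3| ≤ (4 * |K| + 1) * (1 / (4 * |K| + 1) * y) :=
          mul_le_mul (by linarith) hy (abs_nonneg _) (by positivity)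
      _ = y := by field_simp
  have h3 : Filter.Tendsto (fun x : ℕ => Real.log (x : ℝ)) Filter.atTop Filter.atTop :=
    Real.tendsto_log_atTop.comp tendsto_natCast_atTop_atTop
  obtain ⟨x1, hx1⟩ := Filter.eventually_atTop.1 (h3.eventually h2)
  exact ⟨x1, fun x hx => hx1 x hx⟩

/-- the sum over the removed classes -/
theorem omega_sum (z h M2 : ℕ) (Ω : ℕ → Finset ℕ) (hh : 1 ≤ h) (hM2 : 1 ≤ M2)
    (h1 : ∀ p, p.Prime → 1 ≤ (Ω p).card)
    (h2 : ∀ p, p.Prime → ¬ p ∣ h → ¬ p ∣ M2 → (Ω p).card = 2) :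
    2 * B z - ∑ p ∈ h.primeFactors, (1 : ℝ) / p - ∑ p ∈ M2.primeFactors, (1 : ℝ) / p ≤
      ∑ p ∈ (Icc 1 z).filter Nat.Prime, ((Ω p).card : ℝ) / p := by
  have key : ∀ M : ℕ, 1 ≤ M → ∑ p ∈ (Icc 1 z).filter Nat.Prime,
      (if p ∣ M then (1 : ℝ) / p else 0) ≤ ∑ p ∈ M.primeFactors, (1 : ℝ) / p := by
    intro M hM
    rw [← sum_filter]
    refine sum_le_sum_of_subset_of_nonneg ?_ fun p _ _ => by positivity
    intro p hp
    rw [mem_filter, mem_filter] at hp
    exact Nat.mem_primeFactors.2 ⟨hp.1.2, hp.2, by omega⟩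
  have h3 := key h hh
  have h4 := key M2 hM2
  have h5 : 2 * B z - ∑ p ∈ (Icc 1 z).filter Nat.Prime, (if p ∣ h then (1 : ℝ) / p else 0) -
      ∑ p ∈ (Icc 1 z).filter Nat.Prime, (if p ∣ M2 then (1 : ℝ) / p else 0) ≤
      ∑ p ∈ (Icc 1 z).filter Nat.Prime, ((Ω p).card : ℝ) / p := by
    rw [B, mul_sum, ← sum_sub_distrib, ← sum_sub_distrib]
    refine sum_le_sum fun p hp => ?_
    rw [mem_filter] at hp
    have hp0 : (0 : ℝ) < p := by exact_mod_cast hp.2.pos
    have hcard : (2 : ℝ) - (if p ∣ h then (1 : ℝ) else 0) - (if p ∣ M2 then (1 : ℝ) else 0) ≤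
        (Ω p).card := by
      by_cases ha : p ∣ h
      · have h6 : (1 : ℝ) ≤ (Ω p).card := by exact_mod_cast h1 p hp.2
        rw [if_pos ha]
        split_ifs <;> linarith
      · by_cases hb : p ∣ M2
        · have h6 : (1 : ℝ) ≤ (Ω p).card := by exact_mod_cast h1 p hp.2
          rw [if_pos hb]
          split_ifs <;> linarith
        · rw [h2 p hp.2 ha hb, if_neg ha, if_neg hb]
          norm_num
    have h7 : (2 : ℝ) * (1 / p) - (if p ∣ h then (1 : ℝ) / p else 0) -
        (if p ∣ M2 then (1 : ℝ) / p else 0) =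
        ((2 : ℝ) - (if p ∣ h then (1 : ℝ) else 0) - (if p ∣ M2 then (1 : ℝ) else 0)) / p := by
      split_ifs <;> ring
    rw [h7]
    exact div_le_div_of_nonneg_right hcard hp0.le
  linarith

end TWO_

open TWO_ in
theorem p_TWO (h1 : T_SIEVE) (h2 : T_MLOW) (h3 : T_MUP) (h4 : T_OMG) (h5 : T_RES) :
    T_TWO := by
  intro R hR
  obtain ⟨C1, hC1, hmup⟩ := h3
  obtain ⟨C2, D2, hC2, homg⟩ := h4
  set K : ℝ := R * (40 * C1 + 6) with hK
  have hKR : 46 * R ≤ K := by rw [hK]; nlinarith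
  have hK1 : 1 ≤ K := by linarith
  have hK0 : 0 < K := by linarith
  obtain ⟨x1, hx1⟩ := ev K
  refine ⟨12 * Real.exp 2 * K ^ 2 * C2 ^ 2 + 1, 4 + 2 * D2, max 16 x1, ?_, le_max_left _ _, ?_⟩
  · have : 0 ≤ 12 * Real.exp 2 * K ^ 2 * C2 ^ 2 := by positivity
    linarith
  intro x hx h a X hh hhx ha hax hcop hne hXx hX
  have hx16 : 16 ≤ x := (le_max_left _ _).trans hx
  have hx16' : (16 : ℝ) ≤ x := by exact_mod_cast hx16
  have hl := one_le_LL hx16'
  set L : ℝ := Real.log x with hL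
  set l : ℝ := LL x with hld
  have hlL : l = Real.log L := rfl
  have hLK : 4 * K * l ^ 3 ≤ L := hx1 x ((le_max_right _ _).trans hx)
  have hl3 : 1 ≤ l ^ 3 := one_le_pow₀ hl
  have hL0 : 0 < L := by nlinarith
  have hl0 : 0 < l := by linarith
  have hKl2 : 0 < K * l ^ 2 := by positivity
  have hKl21 : 1 ≤ K * l ^ 2 := by nlinarith [one_le_pow₀ hl (n := 2)]
  set E : ℝ := L / (K * l ^ 2) with hE
  have hEl : 4 * l ≤ E := by
    rw [hE, le_div_iff₀ hKl2]
    calc 4 * l * (K * l ^ 2) = 4 * K * l ^ 3 := by ring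
      _ ≤ L := hLK
  have hE4 : 4 ≤ E := by linarith
  have hEL : E ≤ L := div_le_self hL0.le hKl21
  have hexpE : 4 ≤ Real.exp E := by
    have := Real.add_one_le_exp E
    linarith
  set z : ℕ := ⌊Real.exp E⌋₊ with hz
  have hz1 : (z : ℝ) ≤ Real.exp E := Nat.floor_le (Real.exp_pos _).le
  have hz2 : Real.exp E < (z : ℝ) + 1 := Nat.lt_floor_add_one _
  have hz3' : (3 : ℝ) < z := by linarith
  have hz3 : 3 ≤ z := by
    have : (3 : ℕ) < z := by exact_mod_cast hz3'
    omega
  have hz0 : (0 : ℝ) < z := by linarith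
  have hlogz1 : Real.log z ≤ E := by
    rw [Real.log_le_iff_le_exp hz0]
    exact hz1
  have hlogz2 : E / 2 ≤ Real.log z := by
    rw [Real.le_log_iff_exp_le hz0]
    have h6 : Real.exp (E / 2) * Real.exp (E / 2) = Real.exp E := by
      rw [← Real.exp_add]; congr 1; ring
    have h7 : 3 ≤ Real.exp (E / 2) := by
      have := Real.add_one_le_exp (E / 2)
      linarith
    nlinarith
  have hlogz0 : 0 < Real.log z := by linarith
  have hLLz : LL z ≤ l := by
    rw [LL, hlL]
    exact Real.log_le_log hlogz0 (by linarith)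
  have hBz : B z ≤ 2 * C1 * l := by
    refine (hmup z hz3).trans ?_
    nlinarith
  have hB0 : 0 ≤ B z := sum_nonneg fun p _ => by positivity
  -- the sieve applies
  have hsieve : (z : ℝ) ^ (20 * B z + 6) ≤ X := by
    refine le_trans ?_ hX
    rw [Real.rpow_def_of_pos hz0, Real.exp_le_exp]
    calc Real.log z * (20 * B z + 6) ≤ E * (20 * (2 * C1 * l) + 6) :=
          mul_le_mul hlogz1 (by linarith) (by positivity) (by linarith)
      _ ≤ E * ((40 * C1 + 6) * l) := by
          refine mul_le_mul_of_nonneg_left ?_ (by linarith)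
          nlinarith
      _ = L / (R * l) := by
          rw [hE, hK]
          field_simp
  obtain ⟨Ω, hΩ1, hΩ2, hΩ3, hΩ4, hΩ5⟩ := h5 h a hh ha hcop hne
  have hS := h1 X z Ω (by omega) hΩ1 hΩ2 hsieve
  -- the sum
  set M2 : ℕ := ((a : ℤ) - h).natAbs with hM2
  have hM2' : 1 ≤ M2 := by
    rw [hM2, Nat.one_le_iff_ne_zero, Int.natAbs_ne_zero]
    intro h6
    apply hne
    have : (a : ℤ) = h := by linarith
    exact_mod_cast this.symm
  have hM2x : M2 ≤ x := by
    rw [hM2]
    omega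
  have hsum := omega_sum z h M2 Ω hh hM2' hΩ3 (fun p hp hp1 hp2 => hΩ4 p hp hp1 (by
    intro h6
    apply hp2
    rw [hM2]
    exact Int.natCast_dvd.1 h6))
  have ho1 := homg x hx16 h hh hhx
  have ho2 := homg x hx16 M2 hM2' hM2x
  have hml := h2 z (by omega)
  have hexp : Real.exp (-∑ p ∈ (Icc 1 z).filter Nat.Prime, ((Ω p).card : ℝ) / p) ≤
      4 * Real.exp 2 * K ^ 2 * C2 ^ 2 * l ^ (4 + 2 * D2) / L ^ 2 := by
    have h6 : Real.exp (-∑ p ∈ (Icc 1 z).filter Nat.Prime, ((Ω p).card : ℝ) / p) ≤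
        Real.exp (2 - 2 * LL z) * Real.exp (∑ p ∈ h.primeFactors, (1 : ℝ) / p) *
          Real.exp (∑ p ∈ M2.primeFactors, (1 : ℝ) / p) := by
      rw [← Real.exp_add, ← Real.exp_add, Real.exp_le_exp]
      linarith
    have h7 : Real.exp (2 - 2 * LL z) ≤ Real.exp 2 * (4 * K ^ 2 * l ^ 4 / L ^ 2) := by
      have h8 : Real.exp (2 - 2 * LL z) = Real.exp 2 * (1 / Real.log z ^ 2) := by
        have h9 : Real.exp (2 * LL z) = Real.log z ^ 2 := by
          rw [two_mul, Real.exp_add, LL, Real.exp_log hlogz0, sq]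
        rw [Real.exp_sub, h9]
        ring
      rw [h8]
      refine mul_le_mul_of_nonneg_left ?_ (Real.exp_pos _).le
      rw [div_le_div_iff₀ (by positivity) (by positivity), one_mul]
      have h10 : L = E * (K * l ^ 2) := by
        rw [hE, div_mul_cancel₀ _ hKl2.ne']
      have h11 : L ≤ 2 * Real.log z * (K * l ^ 2) := by
        rw [h10]
        refine mul_le_mul_of_nonneg_right ?_ hKl2.le
        linarith
      calc L ^ 2 ≤ (2 * Real.log z * (K * l ^ 2)) ^ 2 := pow_le_pow_left₀ hL0.le h11 2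
        _ = 4 * K ^ 2 * l ^ 4 * Real.log z ^ 2 := by ring
    refine h6.trans ?_
    calc Real.exp (2 - 2 * LL z) * Real.exp (∑ p ∈ h.primeFactors, (1 : ℝ) / p) *
          Real.exp (∑ p ∈ M2.primeFactors, (1 : ℝ) / p)
        ≤ Real.exp 2 * (4 * K ^ 2 * l ^ 4 / L ^ 2) * (C2 * l ^ D2) * (C2 * l ^ D2) := by
          gcongr
      _ = 4 * Real.exp 2 * K ^ 2 * C2 ^ 2 * l ^ (4 + 2 * D2) / L ^ 2 := by
          rw [pow_add, pow_mul']
          ring
  -- the numbers up to `z`
  have hzX : (z : ℝ) ≤ X / L ^ 2 := by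
    rw [le_div_iff₀ (by positivity)]
    refine le_trans ?_ hX
    have h6 : L ^ 2 = Real.exp (2 * l) := by
      rw [two_mul, Real.exp_add, hlL, Real.exp_log hL0, sq]
    calc (z : ℝ) * L ^ 2 ≤ Real.exp E * Real.exp (2 * l) := by
          rw [← h6]
          exact mul_le_mul_of_nonneg_right hz1 (by positivity)
      _ = Real.exp (E + 2 * l) := by rw [Real.exp_add]
      _ ≤ Real.exp (L / (R * l)) := by
          rw [Real.exp_le_exp]
          have h7 : E + 2 * l ≤ 2 * E := by linarith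
          have h8 : 2 * E ≤ L / (R * l) := by
            rw [hE, ← mul_div_assoc, div_le_div_iff₀ hKl2 (by positivity)]
            have h9 : 2 * (R * l) ≤ K * l ^ 2 := by
              have h10 : l ≤ l ^ 2 := by
                rw [sq]
                exact le_mul_of_one_le_left hl0.le hl
              have h11 : R * l ≤ R * l ^ 2 := mul_le_mul_of_nonneg_left h10 (by linarith)
              have h12 : 46 * R * l ^ 2 ≤ K * l ^ 2 :=
                mul_le_mul_of_nonneg_right hKR (by positivity)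
              have h13 : 0 ≤ R * l ^ 2 := by positivity
              linarith
            calc 2 * L * (R * l) = L * (2 * (R * l)) := by ring
              _ ≤ L * (K * l ^ 2) := mul_le_mul_of_nonneg_left h9 hL0.le
          linarith
  -- counting
  have hcount : (((Icc 1 X).filter fun P => P.Prime ∧ (h * (P - 1) + a).Prime).card : ℝ) ≤
      z + (((Icc 1 X).filter fun n => ∀ p ∈ (Icc 1 z).filter Nat.Prime, n % p ∉ Ω p).card : ℝ) := by
    have h6 : ((Icc 1 X).filter fun P => P.Prime ∧ (h * (P - 1) + a).Prime) ⊆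
        (Icc 1 z) ∪ ((Icc 1 X).filter fun n =>
          ∀ p ∈ (Icc 1 z).filter Nat.Prime, n % p ∉ Ω p) := by
      intro P hP
      rw [mem_filter, mem_Icc] at hP
      obtain ⟨⟨hP1, hPX⟩, hPp, hQp⟩ := hP
      rw [mem_union, mem_Icc, mem_filter, mem_Icc]
      rcases Nat.lt_or_ge z P with h7 | h7
      · right
        refine ⟨⟨hP1, hPX⟩, fun p hp hmem => ?_⟩
        rw [mem_filter, mem_Icc] at hp
        have h8 : P ≤ h * (P - 1) + a := by
          have : P - 1 ≤ h * (P - 1) := Nat.le_mul_of_pos_left _ hh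
          omega
        rcases hΩ5 p P hp.2 hP1 hmem with h9 | h9
        · have := (Nat.prime_dvd_prime_iff_eq hp.2 hPp).1 h9
          omega
        · have := (Nat.prime_dvd_prime_iff_eq hp.2 hQp).1 h9
          omega
      · left
        exact ⟨hP1, h7⟩
    have h7 := (card_le_card h6).trans (card_union_le _ _)
    rw [Nat.card_Icc, Nat.add_sub_cancel] at h7
    exact_mod_cast h7
  have hX0 : (0 : ℝ) ≤ X := Nat.cast_nonneg _
  have hlD : 1 ≤ l ^ (4 + 2 * D2) := one_le_pow₀ hl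
  calc (((Icc 1 X).filter fun P => P.Prime ∧ (h * (P - 1) + a).Prime).card : ℝ)
      ≤ X / L ^ 2 + 3 * X * (4 * Real.exp 2 * K ^ 2 * C2 ^ 2 * l ^ (4 + 2 * D2) / L ^ 2) := by
        refine hcount.trans (add_le_add hzX (hS.trans ?_))
        exact mul_le_mul_of_nonneg_left hexp (by positivity)
    _ ≤ X * l ^ (4 + 2 * D2) / L ^ 2 +
        3 * X * (4 * Real.exp 2 * K ^ 2 * C2 ^ 2 * l ^ (4 + 2 * D2) / L ^ 2) := by
        refine add_le_add ?_ le_rfl
        refine div_le_div_of_nonneg_right ?_ (by positivity)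
        exact le_mul_of_one_le_right hX0 hlD
    _ = (12 * Real.exp 2 * K ^ 2 * C2 ^ 2 + 1) * X * l ^ (4 + 2 * D2) / L ^ 2 := by ring

end TPW
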