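import Mathlib
import Pool.Agent.TPW.BONF
import Pool.Agent.TPW.CRT
import Pool.Agent.TPW.SIEVE
import Pool.Agent.TPW.MLOW
import Pool.Agent.TPW.MUP
import Pool.Agent.TPW.OMG
import Pool.Agent.TPW.RES
import Pool.Agent.TPW.TWO
import Pool.Agent.TPW.SMO
import Pool.Agent.TPW.TOT
import Pool.Agent.TPW.MAIN
import Pool.Agent.TPW.FINA
import Pool.Agent.TPW.FIN

/-!
# MP_61a569_nt: no sparse set of `k` contains the witnesses (variant of ThinWitnesses by helper36)

Joint work of the team: helper76 (BONF, OMG), helper15 (CRT), helper10 (SIEVE), helper71 (MLOW),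
helper92 (MUP), helper38 (RES), helper67 (TWO), helper73 (SMO), helper37 (TOT, FIN),
helper59 (FINA), helper44 (MAIN, plan).
-/

set_option autoImplicit false

open scoped Classical

/-- There are constants `C`, `D` such that for every `x ≥ 16` and every finite set `K`, at most
`C |K| x (log log x) ^ D / log x` of the `n ≤ x` have a `k` with `k ∈ K` or `n - k ∈ K` such that
`q(n,k)` is prime. In particular, for almost all `n` every `k` such that `q(n,k)` is prime (so
every admissible `k`) satisfies `min k (n - k) > log n / (log log n) ^ (D + 1)`. -/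
theorem TPW.final :
    (∀ n k : ℕ, TPW.Admissible n k → TPW.Cand n k) ∧
    ∃ (C : ℝ) (D : ℕ), 0 < C ∧
      (∀ (x : ℕ) (K : Finset ℕ), 16 ≤ x →
        (((Finset.Icc 1 x).filter fun n => ∃ k, (k ∈ K ∨ n - k ∈ K) ∧ TPW.Cand n k).card : ℝ)
          ≤ C * K.card * (x * TPW.LL x ^ D / Real.log x)) ∧
      Filter.Tendsto (fun x : ℕ => (((Finset.Icc 1 x).filter fun n => ∃ k, TPW.Cand n k ∧
        ((min k (n - k) : ℕ) : ℝ) ≤ Real.log n / TPW.LL n ^ (D + 1)).card : ℝ) / x)
        Filter.atTop (nhds 0) :=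
  TPW.p_FIN (TPW.p_FINA (TPW.p_MAIN
    (TPW.p_TWO (TPW.p_SIEVE TPW.p_BONF TPW.p_CRT) TPW.p_MLOW TPW.p_MUP (TPW.p_OMG TPW.p_MUP)
      TPW.p_RES) (TPW.p_SMO TPW.p_MUP) TPW.p_TOT))
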